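import Pool.Agent.Helper6_AvgControl.Energy

/-! Agmon type decay estimate. -/

set_option autoImplicit false

open MeasureTheory Set Filter
open scoped RealInnerProductSpace Topology ENNReal Gradient

namespace Pool.Agent.Helper6_AvgControl

variable {n : ℕ} {G : Set (EE n)}

lemma grad_integral_le {η : EE n → ℝ} (hη : IsTest G η) {q : ℝ}
    (hq : ∀ x, ‖gradient η x‖ ^ 2 ≤ q * (1 + η x ^ 2)) (v : L2 G) :
    ∫ x in G, ‖gradient η x‖ ^ 2 * (v x) ^ 2 ≤ q * (‖v‖ ^ 2 + ‖mulOp η (hη.memLp ∞) v‖ ^ 2) := by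
  have hv : Integrable (fun x => (v x) ^ 2) (volume.restrict G) := (Lp.memLp v).integrable_sq
  have hMv : Integrable (fun x => (mulOp η (hη.memLp ∞) v x) ^ 2) (volume.restrict G) :=
    (Lp.memLp _).integrable_sq
  have e1 : q * (‖v‖ ^ 2 + ‖mulOp η (hη.memLp ∞) v‖ ^ 2) =
      ∫ x in G, q * ((v x) ^ 2 + (mulOp η (hη.memLp ∞) v x) ^ 2) := by
    rw [integral_const_mul, integral_add hv hMv, L2_norm_sq, L2_norm_sq]
    simp only [Real.norm_eq_abs, sq_abs]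
  rw [e1]
  apply integral_mono_ae
  · obtain ⟨C, hC⟩ :=
      (hasCompactSupport_grad hη.2.1).exists_bound_of_continuous (continuous_grad hη.contDiff_one)
    apply Integrable.bdd_mul (c := C ^ 2) hv
    · exact ((hη.memLp_grad (G := G) ∞).1.norm.pow 2)
    · filter_upwards with x
      rw [Real.norm_eq_abs, abs_of_nonneg (by positivity)]
      exact pow_le_pow_left₀ (norm_nonneg _) (hC x) 2
  · exact (hv.add hMv).const_mul q
  · filter_upwards [mulOp_coe η (hη.memLp ∞) v] with x hx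
    rw [hx]
    calc ‖gradient η x‖ ^ 2 * (v x) ^ 2 ≤ (q * (1 + η x ^ 2)) * (v x) ^ 2 := by
          apply mul_le_mul_of_nonneg_right (hq x) (sq_nonneg _)
      _ = _ := by ring

/-- partial sums of the expansion. -/
noncomputable def psum (e : HilbertBasis ℕ ℝ (L2 G)) (c : ℕ → ℝ) (N : ℕ) : L2 G :=
  ∑ j ∈ Finset.range N, c j • e j

lemma psum_tendsto (e : HilbertBasis ℕ ℝ (L2 G)) (v : L2 G) :
    Tendsto (psum e (fun j => ⟪e j, v⟫)) atTop (𝓝 v) := by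
  have := (e.hasSum_repr v).tendsto_sum_nat
  refine this.congr (fun N => ?_)
  rw [psum]
  apply Finset.sum_congr rfl
  intro j _
  rw [HilbertBasis.repr_apply_apply]

theorem agmon {lam : ℕ → ℝ} {e : HilbertBasis ℕ ℝ (L2 G)} (hS : IsDirichletSpectrum G lam e)
    {X Y R S : L2 G} {m c q : ℝ}
    (h1 : ∀ j, lam j * ⟪e j, X⟫ = -m * ⟪e j, X⟫ - c * ⟪e j, Y⟫ + ⟪e j, R⟫)
    (h2 : ∀ j, lam j * ⟪e j, Y⟫ = -m * ⟪e j, Y⟫ + c * ⟪e j, X⟫ + ⟪e j, S⟫)
    {η : EE n → ℝ} (hη : IsTest G η)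
    (hq : ∀ x, ‖gradient η x‖ ^ 2 ≤ q * (1 + η x ^ 2))
    (hR : mulOp η (hη.memLp ∞) R = 0) (hSz : mulOp η (hη.memLp ∞) S = 0) :
    (m - q) * (‖mulOp η (hη.memLp ∞) X‖ ^ 2 + ‖mulOp η (hη.memLp ∞) Y‖ ^ 2) ≤
      q * (‖X‖ ^ 2 + ‖Y‖ ^ 2) := by
  set M : L2 G →L[ℝ] L2 G := mulOp η (hη.memLp ∞) with hM
  choose g hg1 hg2 using fun j => eigen_data (hS.eigen j)
  -- energy inequality for finite sums
  have key : ∀ (x : ℕ → ℝ) (N : ℕ),
      -⟪M (psum e (fun j => lam j * x j) N), M (psum e x N)⟫ ≤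
        q * (‖psum e x N‖ ^ 2 + ‖M (psum e x N)‖ ^ 2) := by
    intro x N
    have hH : H01 G (psum e x N) (∑ j ∈ Finset.range N, x j • g j) :=
      H01.sum _ (fun j _ => (hg1 j).smul (x j))
    have hweak : ∀ (ψ : EE n → ℝ) (hψ : IsTest G ψ),
        ⟪(∑ j ∈ Finset.range N, x j • g j), (hψ.memLp_grad 2).toLp (gradient ψ)⟫ =
          ⟪psum e (fun j => lam j * x j) N, (hψ.memLp 2).toLp ψ⟫ := by
      intro ψ hψ
      rw [psum, sum_inner, sum_inner]
      apply Finset.sum_congr rfl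
      intro j _
      rw [real_inner_smul_left, real_inner_smul_left, hg2 j ψ hψ]
      ring
    exact (energy hH hweak hη).trans (grad_integral_le hη hq _)
  -- relations between partial sums
  have rel1 : ∀ N, psum e (fun j => lam j * ⟪e j, X⟫) N =
      -m • psum e (fun j => ⟪e j, X⟫) N - c • psum e (fun j => ⟪e j, Y⟫) N +
        psum e (fun j => ⟪e j, R⟫) N := by
    intro N
    simp only [psum, Finset.smul_sum, ← Finset.sum_sub_distrib, ← Finset.sum_add_distrib]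
    apply Finset.sum_congr rfl
    intro j _
    rw [h1 j]
    simp only [smul_smul, add_smul, sub_smul]
  have rel2 : ∀ N, psum e (fun j => lam j * ⟪e j, Y⟫) N =
      -m • psum e (fun j => ⟪e j, Y⟫) N + c • psum e (fun j => ⟪e j, X⟫) N +
        psum e (fun j => ⟪e j, S⟫) N := by
    intro N
    simp only [psum, Finset.smul_sum, ← Finset.sum_add_distrib]
    apply Finset.sum_congr rfl
    intro j _
    rw [h2 j]
    simp only [smul_smul, add_smul]
  have hX := psum_tendsto e X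
  have hY := psum_tendsto e Y
  have hRt := psum_tendsto e R
  have hSt := psum_tendsto e S
  have hMX := (M.continuous.tendsto X).comp hX
  have hMY := (M.continuous.tendsto Y).comp hY
  have hMR := (M.continuous.tendsto R).comp hRt
  have hMS := (M.continuous.tendsto S).comp hSt
  rw [hR] at hMR
  rw [hSz] at hMS
  have ineq : ∀ N, m * (‖M (psum e (fun j => ⟪e j, X⟫) N)‖ ^ 2 +
      ‖M (psum e (fun j => ⟪e j, Y⟫) N)‖ ^ 2) -
      ⟪M (psum e (fun j => ⟪e j, R⟫) N), M (psum e (fun j => ⟪e j, X⟫) N)⟫ -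
      ⟪M (psum e (fun j => ⟪e j, S⟫) N), M (psum e (fun j => ⟪e j, Y⟫) N)⟫ ≤
      q * (‖psum e (fun j => ⟪e j, X⟫) N‖ ^ 2 + ‖M (psum e (fun j => ⟪e j, X⟫) N)‖ ^ 2) +
      q * (‖psum e (fun j => ⟪e j, Y⟫) N‖ ^ 2 + ‖M (psum e (fun j => ⟪e j, Y⟫) N)‖ ^ 2) := by
    intro N
    have k1 := key (fun j => ⟪e j, X⟫) N
    have k2 := key (fun j => ⟪e j, Y⟫) N
    rw [rel1] at k1
    rw [rel2] at k2
    simp only [map_add, map_sub, map_smul, inner_add_left, inner_sub_left, real_inner_smul_left,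
      real_inner_self_eq_norm_sq, neg_smul, map_neg, inner_neg_left] at k1 k2
    have comm := real_inner_comm (M (psum e (fun j => ⟪e j, X⟫) N))
      (M (psum e (fun j => ⟪e j, Y⟫) N))
    rw [comm] at k1
    linarith
  have l1 : Tendsto (fun N => m * (‖M (psum e (fun j => ⟪e j, X⟫) N)‖ ^ 2 +
      ‖M (psum e (fun j => ⟪e j, Y⟫) N)‖ ^ 2) -
      ⟪M (psum e (fun j => ⟪e j, R⟫) N), M (psum e (fun j => ⟪e j, X⟫) N)⟫ -
      ⟪M (psum e (fun j => ⟪e j, S⟫) N), M (psum e (fun j => ⟪e j, Y⟫) N)⟫) atTop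
      (𝓝 (m * (‖M X‖ ^ 2 + ‖M Y‖ ^ 2) - ⟪(0 : L2 G), M X⟫ - ⟪(0 : L2 G), M Y⟫)) :=
    ((((hMX.norm.pow 2).add (hMY.norm.pow 2)).const_mul m).sub (hMR.inner hMX)).sub
      (hMS.inner hMY)
  have l2 : Tendsto (fun N =>
      q * (‖psum e (fun j => ⟪e j, X⟫) N‖ ^ 2 + ‖M (psum e (fun j => ⟪e j, X⟫) N)‖ ^ 2) +
      q * (‖psum e (fun j => ⟪e j, Y⟫) N‖ ^ 2 + ‖M (psum e (fun j => ⟪e j, Y⟫) N)‖ ^ 2)) atTop
      (𝓝 (q * (‖X‖ ^ 2 + ‖M X‖ ^ 2) + q * (‖Y‖ ^ 2 + ‖M Y‖ ^ 2))) :=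
    (((hX.norm.pow 2).add (hMX.norm.pow 2)).const_mul q).add
      (((hY.norm.pow 2).add (hMY.norm.pow 2)).const_mul q)
  have fin := le_of_tendsto_of_tendsto' l1 l2 ineq
  simp only [inner_zero_left, sub_zero] at fin
  linarith

end Pool.Agent.Helper6_AvgControl
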