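import Mathlib

/-!
# Averaged controllability of random fractional heat equations: definitions
-/

set_option autoImplicit false

open MeasureTheory Set
open scoped RealInnerProductSpace

namespace Pool.Agent.Helper6_AvgControl

/-! ### Euclidean space

`EE n` is Mathlib's `EuclideanSpace ℝ (Fin n)`; the following instances are the standard ones, given
short names so that terms stay small. -/

/-- Euclidean space `ℝⁿ`. -/
abbrev EE (n : ℕ) : Type := EuclideanSpace ℝ (Fin n)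

noncomputable instance instNormedEE (n : ℕ) : NormedAddCommGroup (EE n) := inferInstance
noncomputable instance instInnerEE (n : ℕ) : InnerProductSpace ℝ (EE n) := inferInstance
noncomputable instance instNormedSpaceEE (n : ℕ) : NormedSpace ℝ (EE n) := inferInstance
instance instTopEE (n : ℕ) : TopologicalSpace (EE n) := inferInstance
instance instMeasEE (n : ℕ) : MeasurableSpace (EE n) := inferInstance
instance instBornEE (n : ℕ) : Bornology (EE n) := inferInstance
noncomputable instance instVolEE (n : ℕ) : MeasureSpace (EE n) := inferInstance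

/-- Lebesgue measure restricted to `G`. -/
noncomputable abbrev vG {n : ℕ} (G : Set (EE n)) : Measure (EE n) := volume.restrict G

/-- The space `L²(G)` of real valued functions. -/
abbrev L2 {n : ℕ} (G : Set (EE n)) : Type := Lp ℝ 2 (vG G)

noncomputable instance instNormedL2 {n : ℕ} (G : Set (EE n)) : NormedAddCommGroup (L2 G) :=
  inferInstance
noncomputable instance instInnerL2 {n : ℕ} (G : Set (EE n)) : InnerProductSpace ℝ (L2 G) :=
  inferInstance

/-- Test functions on `G`: smooth functions with compact support contained in `G`. -/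
def IsTest {n : ℕ} (G : Set (EE n)) (φ : EE n → ℝ) : Prop :=
  ContDiff ℝ ((⊤ : ℕ∞) : WithTop ℕ∞) φ ∧ HasCompactSupport φ ∧ tsupport φ ⊆ G

/-- `v` is an eigenfunction of the Dirichlet Laplacian `A = -Δ` of `G` with eigenvalue `lam`:
`v` lies in `H₀¹(G)` (it is an `L²(G)`-limit of test functions whose gradients converge in
`L²(G)` to a field `g = ∇ v`) and `∫ ∇v · ∇ψ = lam ∫ v ψ` for all test functions `ψ`. -/
def IsDirichletEigenfunction {n : ℕ} (G : Set (EE n)) (lam : ℝ) (v : L2 G) : Prop :=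
  ∃ g : EE n → EE n,
    MemLp g 2 (vG G) ∧
    (∀ ε : ℝ, 0 < ε → ∃ φ : EE n → ℝ, IsTest G φ ∧
      ∫ x, (v x - φ x) ^ 2 ∂(vG G) < ε ∧ ∫ x, ‖g x - gradient φ x‖ ^ 2 ∂(vG G) < ε) ∧
    (∀ ψ : EE n → ℝ, IsTest G ψ →
      ∫ x, ⟪g x, gradient ψ x⟫ ∂(vG G) = lam * ∫ x, v x * ψ x ∂(vG G))

/-- `(lam j, e j)` is a spectral resolution of the Dirichlet Laplacian of `G`: the `lam j > 0` are
listed in nondecreasing order and `e` is an orthonormal (Hilbert) basis of `L²(G)` made of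
corresponding Dirichlet eigenfunctions. -/
structure IsDirichletSpectrum {n : ℕ} (G : Set (EE n)) (lam : ℕ → ℝ)
    (e : HilbertBasis ℕ ℝ (L2 G)) : Prop where
  pos : ∀ j, 0 < lam j
  mono : Monotone lam
  eigen : ∀ j, IsDirichletEigenfunction G (lam j) (e j)

/-- `y : [0,T] → L²(G)` solves `y_t + a A^γ y = f` in `(0,T]`, `y(0) = y₀`, where
`A^γ = ∑ lam_j^γ ⟨·, e_j⟩ e_j` and `f : (0,T) → L²(G)`: `y` is continuous and each coefficient
satisfies the integrated equation. -/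
def IsSolution {n : ℕ} {G : Set (EE n)} (lam : ℕ → ℝ)
    (e : HilbertBasis ℕ ℝ (L2 G)) (γ T a : ℝ) (y₀ : L2 G) (f y : ℝ → L2 G) : Prop :=
  ContinuousOn y (Icc 0 T) ∧
  ∀ t ∈ Icc (0 : ℝ) T, ∀ j : ℕ,
    ⟪e j, y t⟫ = ⟪e j, y₀⟫ - a * lam j ^ γ * (∫ s in (0)..t, ⟪e j, y s⟫)
      + ∫ s in (0)..t, ⟪e j, f s⟫

/-- Null controllability in average of `y_t + α(ω) A^γ y = B u`.  There is `C > 0` such that for
every `y₀ ∈ L²(G)` there is a control `u ∈ L²(0,T;L²(G₀))` (an element of `L²(0,T;L²(G))` whose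
values vanish a.e. outside `G₀`, which is `B u`), independent of `ω`, with
`‖u‖ ≤ C ‖y₀‖`, such that the solutions `y(·,ω)` satisfy `∫ y(T,ω) dP(ω) = 0`. -/
def NullControllableInAverage {n : ℕ} {G : Set (EE n)}
    (G₀ : Set (EE n)) (lam : ℕ → ℝ)
    (e : HilbertBasis ℕ ℝ (L2 G)) (γ T : ℝ) {Ω : Type*} [MeasurableSpace Ω] (P : Measure Ω)
    (α : Ω → ℝ) : Prop :=
  ∃ C : ℝ, 0 < C ∧ ∀ y₀ : L2 G, ∃ u : ℝ → L2 G,
    MemLp u 2 (volume.restrict (Ioo 0 T)) ∧
    (∀ᵐ t ∂(volume.restrict (Ioo 0 T)), ∀ᵐ x ∂(vG G), x ∉ G₀ → u t x = 0) ∧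
    eLpNorm u 2 (volume.restrict (Ioo 0 T)) ≤ ENNReal.ofReal (C * ‖y₀‖) ∧
    ∃ y : Ω → ℝ → L2 G, (∀ᵐ ω ∂P, IsSolution lam e γ T (α ω) y₀ u (y ω)) ∧
      ∫ ω, y ω T ∂P = 0

end Pool.Agent.Helper6_AvgControl
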