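import Pool.Agent.Helper6_AvgControl.Ode
import Pool.Agent.Helper6_AvgControl.Defs

/-! Consequences of averaged null controllability for the coefficient functions. -/

set_option autoImplicit false
set_option linter.unusedSectionVars false

open MeasureTheory Set Filter
open scoped RealInnerProductSpace Topology ENNReal

namespace Pool.Agent.Helper6_AvgControl

section abstractH

variable {H : Type*} [NormedAddCommGroup H] [InnerProductSpace ℝ H] [CompleteSpace H]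

lemma sq_integral_abs_le {T : ℝ} (hT : 0 < T) {φ : ℝ → ℝ}
    (h1 : IntegrableOn φ (Ioo 0 T)) (h2 : IntegrableOn (fun t => φ t ^ 2) (Ioo 0 T)) :
    (∫ t in Ioo 0 T, |φ t|) ^ 2 ≤ T * ∫ t in Ioo 0 T, φ t ^ 2 := by
  set s : ℝ := (∫ t in Ioo 0 T, |φ t|) / T with hs
  have h3 : 0 ≤ ∫ t in Ioo 0 T, (|φ t| - s) ^ 2 := integral_nonneg (fun t => sq_nonneg _)
  have h4 : ∫ t in Ioo 0 T, (|φ t| - s) ^ 2 =
      (∫ t in Ioo 0 T, φ t ^ 2) - (2 * s) * (∫ t in Ioo 0 T, |φ t|) + s ^ 2 * T := by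
    have e1 : ∀ t, (|φ t| - s) ^ 2 = φ t ^ 2 - (2 * s) * |φ t| + s ^ 2 := by
      intro t
      have := sq_abs (φ t)
      nlinarith
    simp only [e1]
    have i1 : IntegrableOn (fun t => φ t ^ 2 - (2 * s) * |φ t|) (Ioo 0 T) :=
      h2.sub (h1.abs.const_mul _)
    rw [integral_add i1 (by
      exact integrableOn_const (by simp)), integral_sub h2 (h1.abs.const_mul _),
      integral_const_mul]
    simp [hT.le, mul_comm]
  rw [h4] at h3
  have h5 : (∫ t in Ioo 0 T, |φ t|) = s * T := by rw [hs]; field_simp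
  rw [h5] at h3 ⊢
  nlinarith

variable (e : HilbertBasis ℕ ℝ H)

/-- bound for the coefficients -/
noncomputable def NN (T : ℝ) (y₀ : H) (u : ℝ → H) (j : ℕ) : ℝ :=
  |⟪e j, y₀⟫| + ∫ t in Ioo 0 T, |⟪e j, u t⟫|

variable {e} {T : ℝ} {u : ℝ → H}

lemma coef_memLp (hu : MemLp u 2 (volume.restrict (Ioo 0 T))) (j : ℕ) :
    MemLp (fun t => ⟪e j, u t⟫) 2 (volume.restrict (Ioo 0 T)) := hu.const_inner (e j)

lemma coef_integrable (hu : MemLp u 2 (volume.restrict (Ioo 0 T))) (j : ℕ) :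
    IntegrableOn (fun t => ⟪e j, u t⟫) (Ioo 0 T) :=
  (coef_memLp hu j).integrable (by norm_num)

lemma NN_nonneg (y₀ : H) (j : ℕ) : 0 ≤ NN e T y₀ u j :=
  add_nonneg (abs_nonneg _) (integral_nonneg (fun _ => abs_nonneg _))

lemma summable_NN (hT : 0 < T) (y₀ : H) (hu : MemLp u 2 (volume.restrict (Ioo 0 T))) :
    Summable (fun j => NN e T y₀ u j ^ 2) := by
  have hy : Summable (fun j => ⟪e j, y₀⟫ ^ 2) := by
    have := e.summable_inner_mul_inner y₀ y₀
    refine this.congr (fun j => ?_)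
    rw [real_inner_comm, sq]
  have hu2 : Integrable (fun t => ‖u t‖ ^ 2) (volume.restrict (Ioo 0 T)) :=
    hu.integrable_norm_pow (by norm_num)
  have hφ2 : ∀ j, IntegrableOn (fun t => ⟪e j, u t⟫ ^ 2) (Ioo 0 T) :=
    fun j => (coef_memLp hu j).integrable_sq
  have hs : Summable (fun j => ∫ t in Ioo 0 T, ⟪e j, u t⟫ ^ 2) := by
    apply summable_of_sum_le (c := ∫ t in Ioo 0 T, ‖u t‖ ^ 2)
    · intro j; exact integral_nonneg (fun _ => sq_nonneg _)
    · intro s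
      rw [← integral_finsetSum _ (fun j _ => hφ2 j)]
      apply integral_mono (integrable_finsetSum _ (fun j _ => hφ2 j)) hu2
      intro t
      have := e.orthonormal.sum_inner_products_le (x := u t) (s := s)
      simpa using this
  refine Summable.of_nonneg_of_le (fun j => sq_nonneg _) (fun j => ?_)
    ((hy.mul_left 2).add (hs.mul_left (2 * T)))
  have h1 := sq_integral_abs_le hT (coef_integrable (e := e) hu j) (hφ2 j)
  have h2 : (|⟪e j, y₀⟫| + ∫ t in Ioo 0 T, |⟪e j, u t⟫|) ^ 2 ≤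
      2 * |⟪e j, y₀⟫| ^ 2 + 2 * (∫ t in Ioo 0 T, |⟪e j, u t⟫|) ^ 2 := by
    nlinarith [sq_nonneg (|⟪e j, y₀⟫| - ∫ t in Ioo 0 T, |⟪e j, u t⟫|)]
  rw [sq_abs] at h2
  rw [NN]
  linarith

end abstractH

section average

variable {Ω : Type*} [MeasurableSpace Ω] {P : Measure Ω} [IsProbabilityMeasure P] {α : Ω → ℝ}

/-- the coefficient of the solution at time `T` -/
noncomputable def kk (L y : ℝ) (φ : ℝ → ℝ) (T a : ℝ) : ℝ :=
  Real.exp (-(a * L * T)) * y + ∫ s in Ioo 0 T, Real.exp (-(a * L * (T - s))) * φ s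

lemma prod_integrable (hα : Measurable α) (hα0 : ∀ᵐ ω ∂P, 0 ≤ α ω) {L T : ℝ} (hL : 0 ≤ L)
    {φ : ℝ → ℝ} (hφ : IntegrableOn φ (Ioo 0 T)) :
    Integrable (fun z : Ω × ℝ => Real.exp (-(α z.1 * L * (T - z.2))) * φ z.2)
      (P.prod (volume.restrict (Ioo 0 T))) := by
  have h1 : Integrable (fun z : Ω × ℝ => (1 : ℝ) * φ z.2)
      (P.prod (volume.restrict (Ioo 0 T))) := (integrable_const (1 : ℝ)).mul_prod hφ
  simp only [one_mul] at h1
  apply Integrable.bdd_mul (c := 1) h1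
  · apply Measurable.aestronglyMeasurable
    fun_prop
  · have h2 : ∀ᵐ z ∂(P.prod (volume.restrict (Ioo 0 T))), 0 ≤ α z.1 :=
      Measure.quasiMeasurePreserving_fst.ae hα0
    have h3 : ∀ᵐ z ∂(P.prod (volume.restrict (Ioo 0 T))), z.2 ∈ Ioo 0 T :=
      Measure.quasiMeasurePreserving_snd.ae (ae_restrict_mem measurableSet_Ioo)
    filter_upwards [h2, h3] with z hz1 hz2
    rw [Real.norm_eq_abs, Real.abs_exp]
    apply Real.exp_le_one_iff.2
    have h4 : 0 ≤ α z.1 * L * (T - z.2) :=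
      mul_nonneg (mul_nonneg hz1 hL) (by linarith [hz2.2])
    linarith

lemma kk_aesm (hα : Measurable α) (hα0 : ∀ᵐ ω ∂P, 0 ≤ α ω) {L T : ℝ} (hL : 0 ≤ L) (y : ℝ)
    {φ : ℝ → ℝ} (hφ : IntegrableOn φ (Ioo 0 T)) :
    AEStronglyMeasurable (fun ω => kk L y φ T (α ω)) P := by
  apply AEStronglyMeasurable.add
  · apply Measurable.aestronglyMeasurable
    fun_prop
  · exact (prod_integrable hα hα0 hL hφ).aestronglyMeasurable.integral_prod_right'

lemma kk_abs_le {L T : ℝ} (hT : 0 ≤ T) (hL : 0 ≤ L) (y : ℝ)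
    {φ : ℝ → ℝ} (hφ : IntegrableOn φ (Ioo 0 T)) {a : ℝ} (ha : 0 ≤ a) :
    |kk L y φ T a| ≤ |y| + ∫ t in Ioo 0 T, |φ t| := by
  rw [kk]
  refine (abs_add_le _ _).trans (add_le_add ?_ ?_)
  · rw [abs_mul, Real.abs_exp]
    apply mul_le_of_le_one_left (abs_nonneg _)
    apply Real.exp_le_one_iff.2
    have : 0 ≤ a * L * T := by positivity
    linarith
  · rw [← Real.norm_eq_abs]
    apply norm_integral_le_of_norm_le hφ.abs
    filter_upwards [ae_restrict_mem measurableSet_Ioo] with t ht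
    rw [norm_mul, Real.norm_eq_abs, Real.norm_eq_abs, Real.abs_exp]
    apply mul_le_of_le_one_left (abs_nonneg _)
    apply Real.exp_le_one_iff.2
    have : 0 ≤ a * L * (T - t) := mul_nonneg (mul_nonneg ha hL) (by linarith [ht.2])
    linarith

lemma mt_real (κ : ℝ) (t : ℝ) {x : ℝ} (hx : 0 < x) :
    mt P α κ t (x : ℂ) = ((∫ ω, Real.exp (-(α ω * x ^ κ * t)) ∂P : ℝ) : ℂ) := by
  rw [mt, ← integral_complex_ofReal]
  apply integral_congr_ae
  filter_upwards with ω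
  rw [← Complex.ofReal_cpow hx.le]
  rw [← Complex.ofReal_neg, ← Complex.ofReal_mul]
  rw [Complex.ofReal_exp]
  congr 2
  ring

lemma ww_real (hα : Measurable α) (hα0 : ∀ᵐ ω ∂P, 0 ≤ α ω) {κ T : ℝ} {x : ℝ} (hx : 0 < x)
    {y : ℝ} {φ : ℝ → ℝ} (hφ : IntegrableOn φ (Ioo 0 T)) (hT : 0 ≤ T) :
    ww P α κ T y φ (x : ℂ) = ((∫ ω, kk (x ^ κ) y φ T (α ω) ∂P : ℝ) : ℂ) := by
  have hL : 0 ≤ x ^ κ := Real.rpow_nonneg hx.le _
  rw [ww, mt_real κ T hx]
  have e1 : ∫ t in Ioo 0 T, mt P α κ (T - t) (x : ℂ) * (φ t : ℂ) =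
      ((∫ t in Ioo 0 T, (∫ ω, Real.exp (-(α ω * x ^ κ * (T - t))) * φ t ∂P) : ℝ) : ℂ) := by
    rw [← integral_complex_ofReal]
    apply integral_congr_ae
    filter_upwards with t
    rw [mt_real κ (T - t) hx, integral_mul_const]
    simp
  rw [e1, ← Complex.ofReal_mul, ← Complex.ofReal_add]
  congr 1
  have hpi := prod_integrable hα hα0 hL hφ
  have hswap := integral_integral_swap
    (f := fun (ω : Ω) (t : ℝ) => Real.exp (-(α ω * x ^ κ * (T - t))) * φ t) hpi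
  have i1 : Integrable (fun ω => Real.exp (-(α ω * x ^ κ * T)) * y) P := by
    apply Integrable.mul_const
    apply Integrable.of_bound (C := 1)
    · apply Measurable.aestronglyMeasurable
      fun_prop
    · filter_upwards [hα0] with ω hω
      rw [Real.norm_eq_abs, Real.abs_exp]
      apply Real.exp_le_one_iff.2
      have : 0 ≤ α ω * x ^ κ * T := mul_nonneg (mul_nonneg hω hL) hT
      linarith
  have i2 : Integrable (fun ω => ∫ s in Ioo 0 T, Real.exp (-(α ω * x ^ κ * (T - s))) * φ s) P :=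
    hpi.integral_prod_left
  simp only [kk]
  rw [integral_add i1 i2, integral_mul_const, hswap]

/-- If the averaged final state vanishes then `w_j(√lam_j) = 0`. -/
theorem avg_zero {n : ℕ} {G : Set (EuclideanSpace ℝ (Fin n))} {lam : ℕ → ℝ}
    {e : HilbertBasis ℕ ℝ (L2 G)} (hS : IsDirichletSpectrum G lam e)
    (hα : Measurable α) (hα0 : ∀ᵐ ω ∂P, 0 ≤ α ω) {γ T : ℝ} (hT : 0 < T)
    {y₀ : L2 G} {u : ℝ → L2 G} (hu : MemLp u 2 (volume.restrict (Ioo 0 T)))
    {y : Ω → ℝ → L2 G} (hy : ∀ᵐ ω ∂P, IsSolution lam e γ T (α ω) y₀ u (y ω))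
    (havg : ∫ ω, y ω T ∂P = 0) (j : ℕ) :
    ww P α (2 * γ) T ⟪e j, y₀⟫ (fun t => ⟪e j, u t⟫) ((Real.sqrt (lam j) : ℝ) : ℂ) = 0 := by
  have hφ : ∀ j, IntegrableOn (fun t => ⟪e j, u t⟫) (Ioo 0 T) := fun j => coef_integrable hu j
  have hL : ∀ j, 0 ≤ lam j ^ γ := fun j => Real.rpow_nonneg (hS.pos j).le _
  -- coefficient formula
  have hcoef : ∀ j, ∀ᵐ ω ∂P, ⟪e j, y ω T⟫ =
      kk (lam j ^ γ) ⟪e j, y₀⟫ (fun t => ⟪e j, u t⟫) T (α ω) := by
    intro j
    filter_upwards [hy] with ω hω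
    obtain ⟨hcont, hsol⟩ := hω
    have hc : ContinuousOn (fun t => ⟪e j, y ω t⟫) (Icc 0 T) :=
      continuousOn_const.inner hcont
    have hb : IntervalIntegrable (fun t => ⟪e j, u t⟫) volume 0 T := by
      rw [intervalIntegrable_iff_integrableOn_Ioo_of_le hT.le]
      exact hφ j
    have := duhamel hT hc hb (c0 := ⟪e j, y₀⟫) (k := α ω * lam j ^ γ)
      (fun t ht => hsol t ht j)
    rw [this, kk]
    congr 1
    rw [intervalIntegral.integral_of_le hT.le, integral_Ioc_eq_integral_Ioo]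
  have hcoef' : ∀ᵐ ω ∂P, ∀ j, ⟪e j, y ω T⟫ =
      kk (lam j ^ γ) ⟪e j, y₀⟫ (fun t => ⟪e j, u t⟫) T (α ω) := ae_all_iff.2 hcoef
  -- measurability
  have hmeas : AEStronglyMeasurable (fun ω => y ω T) P := by
    have hlim : ∀ᵐ ω ∂P, Tendsto (fun N : ℕ => ∑ j ∈ Finset.range N,
        kk (lam j ^ γ) ⟪e j, y₀⟫ (fun t => ⟪e j, u t⟫) T (α ω) • e j) atTop (𝓝 (y ω T)) := by
      filter_upwards [hcoef'] with ω hω
      refine ((e.hasSum_repr (y ω T)).tendsto_sum_nat).congr (fun N => ?_)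
      apply Finset.sum_congr rfl
      intro j _
      rw [HilbertBasis.repr_apply_apply, hω j]
    refine aestronglyMeasurable_of_tendsto_ae atTop (fun N => ?_) hlim
    apply Finset.aestronglyMeasurable_fun_sum
    intro j _
    exact (kk_aesm hα hα0 (hL j) _ (hφ j)).smul_const _
  have hint : Integrable (fun ω => y ω T) P := by
    apply Integrable.of_bound (C := Real.sqrt (∑' j, NN e T y₀ u j ^ 2)) hmeas
    filter_upwards [hcoef', hα0] with ω hω hω0
    apply Real.le_sqrt_of_sq_le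
    rw [← real_inner_self_eq_norm_sq, ← e.tsum_inner_mul_inner]
    apply Summable.tsum_le_tsum _ (e.summable_inner_mul_inner _ _) (summable_NN hT y₀ hu)
    intro i
    rw [real_inner_comm, ← sq, ← sq_abs]
    apply pow_le_pow_left₀ (abs_nonneg _)
    rw [hω i]
    exact kk_abs_le hT.le (hL i) _ (hφ i) hω0
  have h1 : ∫ ω, ⟪e j, y ω T⟫ ∂P = 0 := by
    rw [integral_inner hint, havg, inner_zero_right]
  have h2 : ∫ ω, kk (lam j ^ γ) ⟪e j, y₀⟫ (fun t => ⟪e j, u t⟫) T (α ω) ∂P = 0 := by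
    rw [← h1]
    apply integral_congr_ae
    filter_upwards [hcoef j] with ω hω
    rw [hω]
  have hx : 0 < Real.sqrt (lam j) := Real.sqrt_pos.2 (hS.pos j)
  rw [ww_real hα hα0 hx (hφ j) hT.le]
  have h3 : Real.sqrt (lam j) ^ (2 * γ) = lam j ^ γ := by
    rw [Real.rpow_mul hx.le]
    congr 1
    rw [Real.rpow_two, Real.sq_sqrt (hS.pos j).le]
  rw [h3, h2, Complex.ofReal_zero]

end average

end Pool.Agent.Helper6_AvgControl
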