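import Pool.Agent.Helper6_AvgControl.Defs

/-! Energy (Agmon type) estimates for finite combinations of Dirichlet eigenfunctions. -/

set_option autoImplicit false

open MeasureTheory Set Filter
open scoped RealInnerProductSpace Topology ENNReal Gradient

namespace Pool.Agent.Helper6_AvgControl

variable {n : ℕ} {G : Set (EE n)}

/-! ### gradients -/

lemma grad_eq (φ : EE n → ℝ) (x : EE n) :
    gradient φ x = (InnerProductSpace.toDual ℝ (EE n)).symm (fderiv ℝ φ x) := rfl

lemma grad_mul {φ ψ : EE n → ℝ} {x : EE n} (hφ : DifferentiableAt ℝ φ x)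
    (hψ : DifferentiableAt ℝ ψ x) :
    gradient (fun y => φ y * ψ y) x = φ x • gradient ψ x + ψ x • gradient φ x := by
  rw [grad_eq, fderiv_fun_mul hφ hψ, map_add, map_smul, map_smul, grad_eq, grad_eq]

lemma grad_add {φ ψ : EE n → ℝ} {x : EE n} (hφ : DifferentiableAt ℝ φ x)
    (hψ : DifferentiableAt ℝ ψ x) :
    gradient (fun y => φ y + ψ y) x = gradient φ x + gradient ψ x := by
  rw [grad_eq, fderiv_fun_add hφ hψ, map_add, grad_eq, grad_eq]

lemma grad_const_mul {φ : EE n → ℝ} {x : EE n} (hφ : DifferentiableAt ℝ φ x) (c : ℝ) :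
    gradient (fun y => c * φ y) x = c • gradient φ x := by
  rw [grad_eq, fderiv_const_mul hφ, map_smul, grad_eq]

lemma continuous_grad {φ : EE n → ℝ} (h : ContDiff ℝ 1 φ) : Continuous (gradient φ) :=
  (InnerProductSpace.toDual ℝ (EE n)).symm.continuous.comp (h.continuous_fderiv one_ne_zero)

lemma hasCompactSupport_grad {φ : EE n → ℝ} (h : HasCompactSupport φ) :
    HasCompactSupport (gradient φ) := by
  have : gradient φ = (InnerProductSpace.toDual ℝ (EE n)).symm ∘ (fderiv ℝ φ) := rfl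
  rw [this]
  exact (h.fderiv (𝕜 := ℝ)).comp_left (map_zero _)

namespace IsTest

variable {φ ψ : EE n → ℝ}

lemma contDiff_one (h : IsTest G φ) : ContDiff ℝ 1 φ := h.1.of_le (by exact_mod_cast le_top)

lemma differentiableAt (h : IsTest G φ) (x : EE n) : DifferentiableAt ℝ φ x :=
  (h.contDiff_one.differentiable one_ne_zero) x

lemma continuous (h : IsTest G φ) : Continuous φ := h.1.continuous

lemma memLp (h : IsTest G φ) (p : ℝ≥0∞) : MemLp φ p (volume.restrict G) :=
  (h.1.continuous.memLp_of_hasCompactSupport h.2.1).restrict G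

lemma memLp_grad (h : IsTest G φ) (p : ℝ≥0∞) : MemLp (gradient φ) p (volume.restrict G) :=
  ((continuous_grad h.contDiff_one).memLp_of_hasCompactSupport
    (hasCompactSupport_grad h.2.1)).restrict G

lemma mul_left (h : IsTest G φ) {η : EE n → ℝ} (hη : ContDiff ℝ ((⊤ : ℕ∞) : WithTop ℕ∞) η) :
    IsTest G (fun x => η x * φ x) := by
  refine ⟨hη.mul h.1, h.2.1.mul_left, ?_⟩
  exact (tsupport_mul_subset_right (f := η) (g := φ)).trans h.2.2

lemma add (h : IsTest G φ) (h' : IsTest G ψ) : IsTest G (fun x => φ x + ψ x) := by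
  refine ⟨h.1.add h'.1, h.2.1.add h'.2.1, ?_⟩
  exact (tsupport_add φ ψ).trans (union_subset h.2.2 h'.2.2)

lemma const_mul (h : IsTest G φ) (c : ℝ) : IsTest G (fun x => c * φ x) :=
  h.mul_left contDiff_const

end IsTest

lemma isTest_zero : IsTest G (fun _ : EE n => (0 : ℝ)) := by
  refine ⟨contDiff_const, HasCompactSupport.zero, ?_⟩
  have : tsupport (fun _ : EE n => (0 : ℝ)) = ∅ := by
    rw [tsupport_eq_empty_iff]; rfl
  rw [this]; exact empty_subset _

/-- `L²(G; ℝⁿ)`. -/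
abbrev L2v (G : Set (EE n)) : Type := Lp (EE n) 2 (volume.restrict G)

/-- `v ∈ H₀¹(G)` with gradient `g`. -/
def H01 (G : Set (EE n)) (v : L2 G) (g : L2v G) : Prop :=
  ∃ (φ : ℕ → EE n → ℝ) (h : ∀ k, IsTest G (φ k)),
    Tendsto (fun k => ((h k).memLp 2).toLp (φ k)) atTop (𝓝 v) ∧
    Tendsto (fun k => ((h k).memLp_grad 2).toLp (gradient (φ k))) atTop (𝓝 g)

lemma L2_norm_sq {F : Type*} [NormedAddCommGroup F] [InnerProductSpace ℝ F]
    (v : Lp F 2 (volume.restrict G)) : ‖v‖ ^ 2 = ∫ x in G, ‖v x‖ ^ 2 := by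
  rw [← real_inner_self_eq_norm_sq, L2.inner_def]
  apply integral_congr_ae
  filter_upwards with x
  rw [real_inner_self_eq_norm_sq]

lemma H01_zero : H01 G (0 : L2 G) (0 : L2v G) := by
  refine ⟨fun _ _ => 0, fun _ => isTest_zero, ?_, ?_⟩
  · apply tendsto_const_nhds.congr
    intro k
    exact (MemLp.toLp_zero _).symm
  · apply tendsto_const_nhds.congr
    intro k
    rw [← MemLp.toLp_zero (MemLp.zero' (p := 2) (μ := volume.restrict G))]
    apply MemLp.toLp_congr
    filter_upwards with x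
    simp [grad_eq]

lemma H01.add {v v' : L2 G} {g g' : L2v G} (h : H01 G v g) (h' : H01 G v' g') :
    H01 G (v + v') (g + g') := by
  obtain ⟨φ, hφ, h1, h2⟩ := h
  obtain ⟨φ', hφ', h1', h2'⟩ := h'
  refine ⟨fun k x => φ k x + φ' k x, fun k => (hφ k).add (hφ' k), ?_, ?_⟩
  · refine (h1.add h1').congr (fun k => ?_)
    rw [← MemLp.toLp_add]
    rfl
  · refine (h2.add h2').congr (fun k => ?_)
    rw [← MemLp.toLp_add]
    apply MemLp.toLp_congr
    filter_upwards with x
    rw [grad_add ((hφ k).differentiableAt x) ((hφ' k).differentiableAt x)]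
    rfl

lemma H01.smul {v : L2 G} {g : L2v G} (c : ℝ) (h : H01 G v g) : H01 G (c • v) (c • g) := by
  obtain ⟨φ, hφ, h1, h2⟩ := h
  refine ⟨fun k x => c * φ k x, fun k => (hφ k).const_mul c, ?_, ?_⟩
  · refine (h1.const_smul c).congr (fun k => ?_)
    rw [← MemLp.toLp_const_smul]
    rfl
  · refine (h2.const_smul c).congr (fun k => ?_)
    rw [← MemLp.toLp_const_smul]
    apply MemLp.toLp_congr
    filter_upwards with x
    rw [grad_const_mul ((hφ k).differentiableAt x)]
    rfl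

lemma H01.sum {ι : Type*} (s : Finset ι) {v : ι → L2 G} {g : ι → L2v G}
    (h : ∀ i ∈ s, H01 G (v i) (g i)) : H01 G (∑ i ∈ s, v i) (∑ i ∈ s, g i) := by
  classical
  induction s using Finset.induction_on with
  | empty => simpa using H01_zero
  | insert a s ha ih =>
    rw [Finset.sum_insert ha, Finset.sum_insert ha]
    exact (h a (Finset.mem_insert_self a s)).add
      (ih (fun i hi => h i (Finset.mem_insert_of_mem hi)))

/-- Data of a Dirichlet eigenfunction in `Lp` form. -/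
lemma eigen_data {lam : ℝ} {v : L2 G} (h : IsDirichletEigenfunction G lam v) :
    ∃ g : L2v G, H01 G v g ∧ ∀ (ψ : EE n → ℝ) (hψ : IsTest G ψ),
      ⟪g, (hψ.memLp_grad 2).toLp (gradient ψ)⟫ = lam * ⟪v, (hψ.memLp 2).toLp ψ⟫ := by
  obtain ⟨g, hg, happ, hweak⟩ := h
  refine ⟨hg.toLp g, ?_, ?_⟩
  · have hpos : ∀ k : ℕ, (0 : ℝ) < 1 / ((k : ℝ) + 1) := fun k => by positivity
    choose φ hφ h1 h2 using fun k : ℕ => happ (1 / ((k : ℝ) + 1)) (hpos k)
    have hlim : Tendsto (fun k : ℕ => Real.sqrt (1 / ((k : ℝ) + 1))) atTop (𝓝 0) := by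
      have := (tendsto_one_div_add_atTop_nhds_zero_nat (𝕜 := ℝ)).sqrt
      simpa using this
    refine ⟨φ, hφ, ?_, ?_⟩
    · rw [tendsto_iff_norm_sub_tendsto_zero]
      apply squeeze_zero (fun k => norm_nonneg _) _ hlim
      intro k
      apply Real.le_sqrt_of_sq_le
      rw [L2_norm_sq]
      refine le_trans (le_of_eq ?_) (h1 k).le
      apply integral_congr_ae
      filter_upwards [Lp.coeFn_sub (((hφ k).memLp 2).toLp (φ k)) v,
        ((hφ k).memLp 2).coeFn_toLp] with x hx1 hx2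
      rw [hx1, Pi.sub_apply, hx2, Real.norm_eq_abs, sq_abs]
      ring
    · rw [tendsto_iff_norm_sub_tendsto_zero]
      apply squeeze_zero (fun k => norm_nonneg _) _ hlim
      intro k
      apply Real.le_sqrt_of_sq_le
      rw [L2_norm_sq]
      refine le_trans (le_of_eq ?_) (h2 k).le
      apply integral_congr_ae
      filter_upwards [Lp.coeFn_sub (((hφ k).memLp_grad 2).toLp (gradient (φ k))) (hg.toLp g),
        ((hφ k).memLp_grad 2).coeFn_toLp, hg.coeFn_toLp] with x hx1 hx2 hx3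
      rw [hx1, Pi.sub_apply, hx2, hx3, norm_sub_rev]
  · intro ψ hψ
    rw [L2.inner_def, L2.inner_def]
    have h1 := hweak ψ hψ
    have e1 : ∫ x in G, ⟪(hg.toLp g) x, ((hψ.memLp_grad 2).toLp (gradient ψ)) x⟫ =
        ∫ x in G, ⟪g x, gradient ψ x⟫ := by
      apply integral_congr_ae
      filter_upwards [hg.coeFn_toLp, (hψ.memLp_grad 2).coeFn_toLp] with x hx1 hx2
      rw [hx1, hx2]
    have e2 : ∫ x in G, ⟪v x, ((hψ.memLp 2).toLp ψ) x⟫ = ∫ x in G, v x * ψ x := by
      apply integral_congr_ae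
      filter_upwards [(hψ.memLp 2).coeFn_toLp] with x hx2
      rw [hx2]
      simp [mul_comm]
    rw [e1, e2, h1]

/-! ### multiplication operators -/

/-- Multiplication by a bounded function, as an operator on `L²(G)`. -/
noncomputable def mulOp (f : EE n → ℝ) (hf : MemLp f ∞ (volume.restrict G)) : L2 G →L[ℝ] L2 G :=
  (ContinuousLinearMap.mul ℝ ℝ).holderL (volume.restrict G) ∞ 2 2 (hf.toLp f)

lemma mulOp_coe (f : EE n → ℝ) (hf : MemLp f ∞ (volume.restrict G)) (v : L2 G) :
    (mulOp f hf v : EE n → ℝ) =ᵐ[volume.restrict G] fun x => f x * v x := by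
  filter_upwards [(ContinuousLinearMap.mul ℝ ℝ).coeFn_holder (r := 2) (hf.toLp f) v,
    hf.coeFn_toLp] with x h1 h2
  have : (mulOp f hf v : EE n → ℝ) x = ((ContinuousLinearMap.mul ℝ ℝ).holder 2 (hf.toLp f) v) x :=
    rfl
  rw [this, h1, h2]
  rfl

lemma L2_inner (u v : L2 G) : ⟪u, v⟫ = ∫ x in G, u x * v x := by
  rw [L2.inner_def]
  apply integral_congr_ae
  filter_upwards with x
  simp [mul_comm]

lemma mulOp_symm (f : EE n → ℝ) (hf : MemLp f ∞ (volume.restrict G)) (u v : L2 G) :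
    ⟪mulOp f hf u, v⟫ = ⟪u, mulOp f hf v⟫ := by
  rw [L2_inner, L2_inner]
  apply integral_congr_ae
  filter_upwards [mulOp_coe f hf u, mulOp_coe f hf v] with x h1 h2
  rw [h1, h2]; ring

/-- The energy inequality. -/
theorem energy {v Z : L2 G} {g : L2v G} (hv : H01 G v g)
    (hweak : ∀ (ψ : EE n → ℝ) (hψ : IsTest G ψ),
      ⟪g, (hψ.memLp_grad 2).toLp (gradient ψ)⟫ = ⟪Z, (hψ.memLp 2).toLp ψ⟫)
    {η : EE n → ℝ} (hη : IsTest G η) :
    -⟪mulOp η (hη.memLp ∞) Z, mulOp η (hη.memLp ∞) v⟫ ≤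
      ∫ x in G, ‖gradient η x‖ ^ 2 * (v x) ^ 2 := by
  obtain ⟨φ, hφ, h1, h2⟩ := hv
  have hηi := hη.memLp (G := G) ∞
  have hηg := hη.memLp_grad (G := G) ∞
  have hgL := Lp.memLp g
  have hvL := Lp.memLp v
  have hZL := Lp.memLp Z
  -- auxiliary L² functions
  have hη2 : MemLp (fun x => η x * η x) ∞ (volume.restrict G) := (hη.mul_left hη.1).memLp ∞
  have hG1 : MemLp (fun x => (η x * η x) • (g x : EE n)) 2 (volume.restrict G) :=
    hgL.smul (r := 2) hη2
  have hG2 : MemLp (fun x => 2 * (η x * ⟪g x, gradient η x⟫)) 2 (volume.restrict G) := by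
    have h3 : MemLp (fun x => ⟪g x, gradient η x⟫) 2 (volume.restrict G) := by
      have hb : ∃ C, ∀ x, ‖gradient η x‖ ≤ C :=
        (hasCompactSupport_grad hη.2.1).exists_bound_of_continuous (continuous_grad hη.contDiff_one)
      obtain ⟨C, hC⟩ := hb
      refine MemLp.of_le_mul (c := C) hgL (hgL.1.inner hηg.1) ?_
      filter_upwards with x
      calc ‖⟪g x, gradient η x⟫‖ ≤ ‖g x‖ * ‖gradient η x‖ := norm_inner_le_norm _ _
        _ ≤ C * ‖g x‖ := by
          rw [mul_comm]; exact mul_le_mul_of_nonneg_right (hC x) (norm_nonneg _)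
    have h4 : MemLp (fun x => η x • ⟪g x, gradient η x⟫) 2 (volume.restrict G) :=
      h3.smul (r := 2) hηi
    exact h4.const_mul 2
  have hZ1 : MemLp (fun x => (η x * η x) • (Z x : ℝ)) 2 (volume.restrict G) :=
    hZL.smul (r := 2) hη2
  -- the tested identity
  have hid : ∀ k, ⟪hG1.toLp _, ((hφ k).memLp_grad 2).toLp (gradient (φ k))⟫ +
      ⟪hG2.toLp _, ((hφ k).memLp 2).toLp (φ k)⟫ =
      ⟪hZ1.toLp _, ((hφ k).memLp 2).toLp (φ k)⟫ := by
    intro k
    have hψ : IsTest G (fun x => (η x * η x) * φ k x) := (hφ k).mul_left (hη.1.mul hη.1)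
    have h3 := hweak _ hψ
    rw [L2.inner_def, L2_inner] at h3
    rw [L2.inner_def, L2_inner, L2_inner]
    have e1 : ∫ x in G, ⟪g x, ((hψ.memLp_grad 2).toLp
        (gradient (fun x => (η x * η x) * φ k x))) x⟫ =
        ∫ x in G, (⟪(η x * η x) • g x, gradient (φ k) x⟫ +
          (2 * (η x * ⟪g x, gradient η x⟫)) * φ k x) := by
      apply integral_congr_ae
      filter_upwards [(hψ.memLp_grad 2).coeFn_toLp] with x hx
      rw [hx, grad_mul ((hη.differentiableAt x).fun_mul (hη.differentiableAt x))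
        ((hφ k).differentiableAt x), grad_mul (hη.differentiableAt x) (hη.differentiableAt x)]
      simp only [inner_add_right, inner_smul_right, inner_smul_left, smul_add,
        conj_trivial]
      ring
    have e2 : ∫ x in G, Z x * ((hψ.memLp 2).toLp (fun x => (η x * η x) * φ k x)) x =
        ∫ x in G, ((η x * η x) • Z x) * φ k x := by
      apply integral_congr_ae
      filter_upwards [(hψ.memLp 2).coeFn_toLp] with x hx
      rw [hx, smul_eq_mul]; ring
    rw [e1, e2] at h3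
    have e3 : ∫ x in G, ⟪(hG1.toLp _) x, (((hφ k).memLp_grad 2).toLp (gradient (φ k))) x⟫ =
        ∫ x in G, ⟪(η x * η x) • g x, gradient (φ k) x⟫ := by
      apply integral_congr_ae
      filter_upwards [hG1.coeFn_toLp, ((hφ k).memLp_grad 2).coeFn_toLp] with x hx1 hx2
      rw [hx1, hx2]
    have e4 : ∫ x in G, (hG2.toLp _) x * (((hφ k).memLp 2).toLp (φ k)) x =
        ∫ x in G, (2 * (η x * ⟪g x, gradient η x⟫)) * φ k x := by
      apply integral_congr_ae
      filter_upwards [hG2.coeFn_toLp, ((hφ k).memLp 2).coeFn_toLp] with x hx1 hx2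
      rw [hx1, hx2]
    have e5 : ∫ x in G, (hZ1.toLp _) x * (((hφ k).memLp 2).toLp (φ k)) x =
        ∫ x in G, ((η x * η x) • Z x) * φ k x := by
      apply integral_congr_ae
      filter_upwards [hZ1.coeFn_toLp, ((hφ k).memLp 2).coeFn_toLp] with x hx1 hx2
      rw [hx1, hx2]
    rw [e3, e4, e5, ← integral_add, h3]
    · have := L2.integrable_inner (𝕜 := ℝ) (hG1.toLp _)
        (((hφ k).memLp_grad 2).toLp (gradient (φ k)))
      refine this.congr ?_
      filter_upwards [hG1.coeFn_toLp, ((hφ k).memLp_grad 2).coeFn_toLp] with x hx1 hx2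
      rw [hx1, hx2]
    · exact hG2.integrable_mul ((hφ k).memLp 2)
  -- pass to the limit
  have hlim1 : Tendsto (fun k => ⟪hG1.toLp _, ((hφ k).memLp_grad 2).toLp (gradient (φ k))⟫ +
      ⟪hG2.toLp _, ((hφ k).memLp 2).toLp (φ k)⟫) atTop (𝓝 (⟪hG1.toLp _, g⟫ + ⟪hG2.toLp _, v⟫)) :=
    (tendsto_const_nhds.inner h2).add (tendsto_const_nhds.inner h1)
  have hlim2 : Tendsto (fun k => ⟪hZ1.toLp _, ((hφ k).memLp 2).toLp (φ k)⟫) atTop
      (𝓝 ⟪hZ1.toLp _, v⟫) := tendsto_const_nhds.inner h1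
  have hfin : ⟪hG1.toLp _, g⟫ + ⟪hG2.toLp _, v⟫ = ⟪hZ1.toLp _, v⟫ :=
    tendsto_nhds_unique (hlim1.congr hid) hlim2
  have e6 : ⟪mulOp η hηi Z, mulOp η hηi v⟫ = ⟪hZ1.toLp _, v⟫ := by
    rw [L2_inner, L2_inner]
    apply integral_congr_ae
    filter_upwards [mulOp_coe η hηi Z, mulOp_coe η hηi v, hZ1.coeFn_toLp] with x hx1 hx2 hx3
    rw [hx1, hx2, hx3, smul_eq_mul]; ring
  rw [e6, ← hfin, neg_le_iff_add_nonneg']
  rw [L2.inner_def, L2_inner]
  have i1 : Integrable (fun x => ⟪(hG1.toLp _) x, g x⟫) (volume.restrict G) :=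
    L2.integrable_inner (𝕜 := ℝ) _ _
  have i2 : Integrable (fun x => (hG2.toLp _) x * v x) (volume.restrict G) :=
    (Lp.memLp _).integrable_mul hvL
  have i3 : Integrable (fun x => ‖gradient η x‖ ^ 2 * (v x) ^ 2) (volume.restrict G) := by
    obtain ⟨C, hC⟩ :=
      (hasCompactSupport_grad hη.2.1).exists_bound_of_continuous (continuous_grad hη.contDiff_one)
    have hvs : Integrable (fun x => (v x) ^ 2) (volume.restrict G) := hvL.integrable_sq
    apply Integrable.bdd_mul (c := C ^ 2) hvs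
    · exact (hηg.1.norm.pow 2)
    · filter_upwards with x
      rw [Real.norm_eq_abs, abs_of_nonneg (by positivity)]
      exact pow_le_pow_left₀ (norm_nonneg _) (hC x) 2
  have i12 : Integrable (fun x => ⟪(hG1.toLp _) x, g x⟫ + (hG2.toLp _) x * v x)
      (volume.restrict G) := i1.add i2
  rw [← integral_add i1 i2, ← integral_add i12 i3]
  apply integral_nonneg_of_ae
  filter_upwards [hG1.coeFn_toLp, hG2.coeFn_toLp] with x hx1 hx2
  simp only [Pi.zero_apply]
  rw [hx1, hx2]
  have h5 : 0 ≤ ‖η x • g x + v x • gradient η x‖ ^ 2 := by positivity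
  rw [@norm_add_sq_real] at h5
  rw [norm_smul, norm_smul, mul_pow, mul_pow, Real.norm_eq_abs, Real.norm_eq_abs, sq_abs, sq_abs,
    inner_smul_left, inner_smul_right] at h5
  simp only [inner_smul_left, conj_trivial, real_inner_self_eq_norm_sq] at h5 ⊢
  nlinarith [h5]

end Pool.Agent.Helper6_AvgControl
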