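import Pool.Agent.Helper6_AvgControl.Energy

/-! Integration by parts against test functions, and explicit cutoff functions. -/

set_option autoImplicit false

open MeasureTheory Set Filter
open scoped RealInnerProductSpace Topology ENNReal Gradient

namespace Pool.Agent.Helper6_AvgControl

variable {n : ℕ} {G : Set (EE n)}

/-- partial derivative -/
noncomputable def pd (i : Fin n) (ψ : EE n → ℝ) (x : EE n) : ℝ :=
  fderiv ℝ ψ x (EuclideanSpace.single i (1 : ℝ))

/-- Laplacian -/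
noncomputable def lapl (ψ : EE n → ℝ) (x : EE n) : ℝ := ∑ i, pd i (pd i ψ) x

lemma contDiff_pd {ψ : EE n → ℝ} (h : ContDiff ℝ ((⊤ : ℕ∞) : WithTop ℕ∞) ψ) (i : Fin n) :
    ContDiff ℝ ((⊤ : ℕ∞) : WithTop ℕ∞) (pd i ψ) :=
  (h.fderiv_right (m := ((⊤ : ℕ∞) : WithTop ℕ∞)) (by exact_mod_cast le_top)).clm_apply
    contDiff_const

lemma contDiff_lapl {ψ : EE n → ℝ} (h : ContDiff ℝ ((⊤ : ℕ∞) : WithTop ℕ∞) ψ) :
    ContDiff ℝ ((⊤ : ℕ∞) : WithTop ℕ∞) (lapl ψ) :=
  ContDiff.sum (fun i _ => contDiff_pd (contDiff_pd h i) i)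

lemma tsupport_pd_subset (ψ : EE n → ℝ) (i : Fin n) : tsupport (pd i ψ) ⊆ tsupport ψ :=
  tsupport_fderiv_apply_subset ℝ _

lemma IsTest.pd {ψ : EE n → ℝ} (h : IsTest G ψ) (i : Fin n) : IsTest G (pd i ψ) :=
  ⟨contDiff_pd h.1 i, h.2.1.mono' ((subset_tsupport _).trans (tsupport_pd_subset ψ i)),
    (tsupport_pd_subset ψ i).trans h.2.2⟩

lemma isTest_sum {ι : Type*} (s : Finset ι) {ψ : ι → EE n → ℝ} (h : ∀ i ∈ s, IsTest G (ψ i)) :
    IsTest G (fun x => ∑ i ∈ s, ψ i x) := by
  classical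
  induction s using Finset.induction_on with
  | empty => simpa using isTest_zero
  | insert a s ha ih =>
    simp only [Finset.sum_insert ha]
    exact (h a (Finset.mem_insert_self a s)).add
      (ih (fun i hi => h i (Finset.mem_insert_of_mem hi)))

lemma IsTest.lapl {ψ : EE n → ℝ} (h : IsTest G ψ) : IsTest G (lapl ψ) :=
  isTest_sum _ (fun i _ => (h.pd i).pd i)

lemma grad_apply (ψ : EE n → ℝ) (x : EE n) (i : Fin n) : (gradient ψ x) i = pd i ψ x := by
  have h1 : ⟪gradient ψ x, EuclideanSpace.single i (1 : ℝ)⟫ = pd i ψ x := by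
    rw [grad_eq, InnerProductSpace.toDual_symm_apply]; rfl
  rw [← h1, real_inner_comm, EuclideanSpace.inner_single_left]
  simp

lemma inner_grad (φ ψ : EE n → ℝ) (x : EE n) :
    ⟪gradient φ x, gradient ψ x⟫ = ∑ i, pd i φ x * pd i ψ x := by
  rw [PiLp.inner_apply]
  apply Finset.sum_congr rfl
  intro i _
  rw [grad_apply, grad_apply]
  simp [mul_comm]

lemma IsTest.eq_zero {ψ : EE n → ℝ} (h : IsTest G ψ) {x : EE n} (hx : x ∉ G) : ψ x = 0 :=
  image_eq_zero_of_notMem_tsupport (fun h' => hx (h.2.2 h'))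

lemma IsTest.memLp_vol {ψ : EE n → ℝ} (h : IsTest G ψ) (p : ℝ≥0∞) : MemLp ψ p volume :=
  h.1.continuous.memLp_of_hasCompactSupport h.2.1

lemma parts_aux {φ ψ : EE n → ℝ} (hφ : IsTest G φ) (hψ : IsTest G ψ) (i : Fin n) :
    ∫ x in G, φ x * pd i ψ x = - ∫ x in G, pd i φ x * ψ x := by
  have e1 : ∫ x in G, φ x * pd i ψ x = ∫ x, φ x * pd i ψ x := by
    apply setIntegral_eq_integral_of_forall_compl_eq_zero
    intro x hx
    rw [hφ.eq_zero hx, zero_mul]
  have e2 : ∫ x in G, pd i φ x * ψ x = ∫ x, pd i φ x * ψ x := by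
    apply setIntegral_eq_integral_of_forall_compl_eq_zero
    intro x hx
    rw [hψ.eq_zero hx, mul_zero]
  rw [e1, e2]
  apply integral_mul_fderiv_eq_neg_fderiv_mul_of_integrable
  · exact ((hφ.pd i).memLp_vol 2).integrable_mul (hψ.memLp_vol 2)
  · exact (hφ.memLp_vol 2).integrable_mul ((hψ.pd i).memLp_vol 2)
  · exact (hφ.memLp_vol 2).integrable_mul (hψ.memLp_vol 2)
  · exact fun x _ => hφ.differentiableAt x
  · exact fun x _ => hψ.differentiableAt x

lemma parts {φ ψ : EE n → ℝ} (hφ : IsTest G φ) (hψ : IsTest G ψ) :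
    ∫ x in G, ⟪gradient φ x, gradient ψ x⟫ = - ∫ x in G, φ x * lapl ψ x := by
  simp only [inner_grad, lapl, Finset.mul_sum]
  rw [integral_finsetSum, integral_finsetSum, ← Finset.sum_neg_distrib]
  · apply Finset.sum_congr rfl
    intro i _
    rw [parts_aux hφ (hψ.pd i) i, neg_neg]
  · intro i _
    exact (hφ.memLp 2).integrable_mul (((hψ.pd i).pd i).memLp 2)
  · intro i _
    exact ((hφ.pd i).memLp 2).integrable_mul ((hψ.pd i).memLp 2)

lemma toLp_inner {φ ψ : EE n → ℝ} (hφ : MemLp φ 2 (volume.restrict G))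
    (hψ : MemLp ψ 2 (volume.restrict G)) :
    ⟪hφ.toLp φ, hψ.toLp ψ⟫ = ∫ x in G, φ x * ψ x := by
  rw [L2.inner_def]
  apply integral_congr_ae
  filter_upwards [hφ.coeFn_toLp, hψ.coeFn_toLp] with x h1 h2
  rw [h1, h2]
  simp [mul_comm]

/-- Weak gradient pairing as a pairing with the Laplacian. -/
lemma H01_lapl {v : L2 G} {g : L2v G} (h : H01 G v g) {ψ : EE n → ℝ} (hψ : IsTest G ψ) :
    ⟪g, (hψ.memLp_grad 2).toLp (gradient ψ)⟫ = - ⟪v, (hψ.lapl.memLp 2).toLp (lapl ψ)⟫ := by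
  obtain ⟨φ, hφ, h1, h2⟩ := h
  have l1 := h2.inner (𝕜 := ℝ)
    (tendsto_const_nhds (x := (hψ.memLp_grad 2).toLp (gradient ψ)))
  have l2 := (h1.inner (𝕜 := ℝ)
    (tendsto_const_nhds (x := (hψ.lapl.memLp 2).toLp (lapl ψ)))).neg
  apply tendsto_nhds_unique l1
  refine l2.congr (fun k => ?_)
  rw [toLp_inner, ← parts (hφ k) hψ, L2.inner_def]
  apply integral_congr_ae
  filter_upwards [((hφ k).memLp_grad 2).coeFn_toLp, (hψ.memLp_grad 2).coeFn_toLp] with x h3 h4
  rw [h3, h4]

/-- Distributional eigenvalue equation. -/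
lemma eigen_lapl {lam : ℝ} {v : L2 G} (h : IsDirichletEigenfunction G lam v)
    {ψ : EE n → ℝ} (hψ : IsTest G ψ) :
    - ⟪v, (hψ.lapl.memLp 2).toLp (lapl ψ)⟫ = lam * ⟪v, (hψ.memLp 2).toLp ψ⟫ := by
  obtain ⟨g, hg, hw⟩ := eigen_data h
  rw [← H01_lapl hg hψ, hw ψ hψ]

/-! ### the oscillating function -/

/-- `θ(x) = cos(ρ (x - x₀)_i)` -/
noncomputable def theta (ρ : ℝ) (x₀ : EE n) (i : Fin n) (x : EE n) : ℝ :=
  Real.cos (ρ * (x i - x₀ i))

lemma hasFDerivAt_coord (i : Fin n) (x : EE n) :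
    HasFDerivAt (fun y : EE n => y i) (EuclideanSpace.proj i : EE n →L[ℝ] ℝ) x :=
  (EuclideanSpace.proj i : EE n →L[ℝ] ℝ).hasFDerivAt

lemma proj_apply' (i : Fin n) (v : EE n) :
    (EuclideanSpace.proj i : EE n →L[ℝ] ℝ) v = v i := rfl

lemma contDiff_theta (ρ : ℝ) (x₀ : EE n) (i : Fin n) :
    ContDiff ℝ ((⊤ : ℕ∞) : WithTop ℕ∞) (theta ρ x₀ i) := by
  have h1 : ContDiff ℝ ((⊤ : ℕ∞) : WithTop ℕ∞) (fun y : EE n => y i) :=
    (EuclideanSpace.proj i : EE n →L[ℝ] ℝ).contDiff
  exact Real.contDiff_cos.comp (contDiff_const.mul (h1.sub contDiff_const))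

lemma pd_theta (ρ : ℝ) (x₀ : EE n) (i j : Fin n) :
    pd j (theta ρ x₀ i) = fun x => if j = i then -ρ * Real.sin (ρ * (x i - x₀ i)) else 0 := by
  funext x
  have h1 : HasFDerivAt (fun y : EE n => ρ * (y i - x₀ i))
      (ρ • (EuclideanSpace.proj i : EE n →L[ℝ] ℝ)) x :=
    ((hasFDerivAt_coord i x).sub_const (x₀ i)).const_mul ρ
  have h2 := h1.cos
  have h3 : fderiv ℝ (theta ρ x₀ i) x = _ := h2.fderiv
  rw [pd, h3]
  simp only [smul_apply, proj_apply', smul_eq_mul]
  by_cases hij : j = i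
  · subst hij; simp; ring
  · simp [hij, Ne.symm hij]

lemma lapl_theta (ρ : ℝ) (x₀ : EE n) (i : Fin n) (x : EE n) :
    lapl (theta ρ x₀ i) x = -ρ ^ 2 * theta ρ x₀ i x := by
  rw [lapl, Finset.sum_eq_single i]
  · rw [pd_theta]
    simp only [if_true]
    have h1 : HasFDerivAt (fun y : EE n => ρ * (y i - x₀ i))
        (ρ • (EuclideanSpace.proj i : EE n →L[ℝ] ℝ)) x :=
      ((hasFDerivAt_coord i x).sub_const (x₀ i)).const_mul ρ
    have h2 := (h1.sin).const_mul (-ρ)
    rw [pd, h2.fderiv]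
    simp only [smul_apply, proj_apply', smul_eq_mul, theta]
    simp; ring
  · intro j _ hj
    rw [pd_theta]
    simp only [hj, if_false]
    rw [pd]
    simp
  · simp

lemma pd_congr {φ ψ : EE n → ℝ} {x : EE n} (h : φ =ᶠ[𝓝 x] ψ) (i : Fin n) :
    pd i φ =ᶠ[𝓝 x] pd i ψ := by
  filter_upwards [h.fderiv (𝕜 := ℝ)] with y hy
  rw [pd, pd, hy]

lemma lapl_congr {φ ψ : EE n → ℝ} {x : EE n} (h : φ =ᶠ[𝓝 x] ψ) : lapl φ x = lapl ψ x := by
  rw [lapl, lapl]
  apply Finset.sum_congr rfl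
  intro i _
  exact (pd_congr (pd_congr h i) i).eq_of_nhds

lemma lapl_zero (x : EE n) : lapl (fun _ : EE n => (0 : ℝ)) x = 0 := by
  have : ∀ i : Fin n, pd i (fun _ : EE n => (0 : ℝ)) = fun _ => 0 := by
    intro i; funext y; rw [pd]; simp
  rw [lapl]
  simp only [this, Finset.sum_const_zero]

/-- The data used in the non-controllability argument. -/
theorem exists_data {G₀ : Set (EE n)} {x₀ : EE n} {R : ℝ} (hR : 0 < R)
    (hG : Metric.ball x₀ R ⊆ G \ closure G₀) (i : Fin n) (ρ : ℝ) :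
    ∃ (χ Ψ : EE n → ℝ) (hΨ : IsTest G Ψ) (y₀ : L2 G), IsTest G χ ∧
      (∀ x ∈ G₀, χ x = 0) ∧ (∀ x ∈ G₀, Ψ x = 0) ∧
      (∀ x, -lapl Ψ x - ρ ^ 2 * Ψ x ≠ 0 → χ x = 1) ∧
      (∀ᵐ x ∂(volume.restrict G), χ x * y₀ x = 0) ∧
      0 < ⟪y₀, (hΨ.memLp 2).toLp Ψ⟫ := by
  set r : ℝ := R / 5 with hr
  have hr0 : 0 < r := by positivity
  let bA : ContDiffBump x₀ := ⟨r, 2 * r, hr0, by linarith⟩
  let bB : ContDiffBump x₀ := ⟨3 * r, 4 * r, by linarith, by linarith⟩
  let b1 : ContDiffBump x₀ := ⟨2 * r, 3 * r, by linarith, by linarith⟩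
  have hsub : ∀ s, s < 5 * r → Metric.closedBall x₀ s ⊆ Metric.ball x₀ R := by
    intro s hs
    apply Metric.closedBall_subset_ball
    rw [hr] at hs; linarith
  have hballG : Metric.ball x₀ R ⊆ G := fun x hx => (hG hx).1
  have hballG₀ : ∀ x ∈ G₀, x ∉ Metric.ball x₀ R := fun x hx hx' => (hG hx').2 (subset_closure hx)
  have hA1 : ∀ x ∈ Metric.closedBall x₀ r, bA x = 1 := fun x hx => bA.one_of_mem_closedBall hx
  have hA0 : ∀ x, 2 * r ≤ dist x x₀ → bA x = 0 := fun x hx => bA.zero_of_le_dist hx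
  have hB1 : ∀ x ∈ Metric.closedBall x₀ (3 * r), bB x = 1 :=
    fun x hx => bB.one_of_mem_closedBall hx
  have hB0 : ∀ x, 4 * r ≤ dist x x₀ → bB x = 0 := fun x hx => bB.zero_of_le_dist hx
  have h10 : ∀ x, 3 * r ≤ dist x x₀ → b1 x = 0 := fun x hx => b1.zero_of_le_dist hx
  have h11 : ∀ x ∈ Metric.closedBall x₀ (2 * r), b1 x = 1 :=
    fun x hx => b1.one_of_mem_closedBall hx
  have tA : IsTest G bA := ⟨bA.contDiff, bA.hasCompactSupport, by
    rw [bA.tsupport_eq]
    exact (hsub (2 * r) (by linarith)).trans hballG⟩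
  have tB : IsTest G bB := ⟨bB.contDiff, bB.hasCompactSupport, by
    rw [bB.tsupport_eq]
    exact (hsub (4 * r) (by linarith)).trans hballG⟩
  have t1 : IsTest G b1 := ⟨b1.contDiff, b1.hasCompactSupport, by
    rw [b1.tsupport_eq]
    exact (hsub (3 * r) (by linarith)).trans hballG⟩
  have tχ : IsTest G (fun x => bB x + (-1) * bA x) := tB.add (tA.const_mul (-1))
  have tΨ : IsTest G (fun x => theta ρ x₀ i x * b1 x) := t1.mul_left (contDiff_theta ρ x₀ i)
  have hθc : Continuous (theta ρ x₀ i) := (contDiff_theta ρ x₀ i).continuous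
  have hy₀ : MemLp ((Metric.closedBall x₀ r).indicator (theta ρ x₀ i)) 2 (volume.restrict G) := by
    apply MemLp.restrict
    rw [memLp_indicator_iff_restrict measurableSet_closedBall]
    have hfin : IsFiniteMeasure (volume.restrict (Metric.closedBall x₀ r)) := by
      constructor
      rw [Measure.restrict_apply_univ]
      exact (isCompact_closedBall x₀ r).measure_lt_top
    apply MemLp.of_bound hθc.aestronglyMeasurable 1
    filter_upwards with x
    exact Real.abs_cos_le_one _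
  refine ⟨fun x => bB x + (-1) * bA x, fun x => theta ρ x₀ i x * b1 x, tΨ, hy₀.toLp _, tχ,
    ?_, ?_, ?_, ?_, ?_⟩
  · intro x hx
    have h1 : R ≤ dist x x₀ := by
      have := hballG₀ x hx
      rwa [Metric.mem_ball, not_lt] at this
    have h2 : 5 * r = R := by rw [hr]; ring
    simp only
    rw [hA0 x (by linarith), hB0 x (by linarith)]
    ring
  · intro x hx
    have h1 : R ≤ dist x x₀ := by
      have := hballG₀ x hx
      rwa [Metric.mem_ball, not_lt] at this
    have h2 : 5 * r = R := by rw [hr]; ring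
    simp only
    rw [h10 x (by linarith), mul_zero]
  · intro x hx
    simp only
    by_cases h1 : dist x x₀ < 2 * r
    · exfalso
      apply hx
      have hev : (fun x => theta ρ x₀ i x * b1 x) =ᶠ[𝓝 x] theta ρ x₀ i := by
        filter_upwards [Metric.isOpen_ball.mem_nhds (Metric.mem_ball.2 h1)] with y hy
        rw [h11 y (Metric.ball_subset_closedBall hy), mul_one]
      rw [lapl_congr hev, lapl_theta]
      have := hev.eq_of_nhds
      beta_reduce
      rw [this]; ring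
    · by_cases h2 : 3 * r < dist x x₀
      · exfalso
        apply hx
        have hev : (fun x => theta ρ x₀ i x * b1 x) =ᶠ[𝓝 x] fun _ => 0 := by
          have hop : IsOpen {y : EE n | 3 * r < dist y x₀} :=
            isOpen_lt continuous_const (continuous_id.dist continuous_const)
          filter_upwards [hop.mem_nhds h2] with y hy
          rw [h10 y (le_of_lt hy), mul_zero]
        rw [lapl_congr hev, lapl_zero]
        have := hev.eq_of_nhds
        beta_reduce
        rw [this]; ring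
      · rw [hB1 x (Metric.mem_closedBall.2 (not_lt.1 h2)), hA0 x (not_lt.1 h1)]
        ring
  · filter_upwards [hy₀.coeFn_toLp] with x hx
    rw [hx]
    by_cases h1 : x ∈ Metric.closedBall x₀ r
    · rw [hA1 x h1, hB1 x (Metric.closedBall_subset_closedBall (by linarith) h1)]
      ring
    · rw [indicator_of_notMem h1, mul_zero]
  · rw [toLp_inner]
    have e1 : ∀ x, (Metric.closedBall x₀ r).indicator (theta ρ x₀ i) x * (theta ρ x₀ i x * b1 x) =
        (Metric.closedBall x₀ r).indicator (fun x => theta ρ x₀ i x ^ 2) x := by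
      intro x
      by_cases h1 : x ∈ Metric.closedBall x₀ r
      · rw [indicator_of_mem h1, indicator_of_mem h1,
          h11 x (Metric.closedBall_subset_closedBall (by linarith) h1)]
        ring
      · rw [indicator_of_notMem h1, indicator_of_notMem h1, zero_mul]
    simp only [e1]
    rw [integral_indicator measurableSet_closedBall, Measure.restrict_restrict
      measurableSet_closedBall]
    have hin : Metric.closedBall x₀ r ∩ G = Metric.closedBall x₀ r :=
      inter_eq_left.2 ((hsub r (by linarith)).trans hballG)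
    rw [hin]
    have hcont : Continuous (fun x => theta ρ x₀ i x ^ 2) := hθc.pow 2
    have hintg : IntegrableOn (fun x => theta ρ x₀ i x ^ 2) (Metric.closedBall x₀ r) :=
      hcont.continuousOn.integrableOn_compact (isCompact_closedBall x₀ r)
    rw [setIntegral_pos_iff_support_of_nonneg_ae (by
      filter_upwards with x; exact sq_nonneg _) hintg]
    have hopen : IsOpen (Metric.ball x₀ r ∩ {x | 0 < theta ρ x₀ i x ^ 2}) :=
      Metric.isOpen_ball.inter (isOpen_lt continuous_const hcont)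
    have hne : (Metric.ball x₀ r ∩ {x | 0 < theta ρ x₀ i x ^ 2}).Nonempty := by
      refine ⟨x₀, Metric.mem_ball_self hr0, ?_⟩
      simp [theta]
    refine lt_of_lt_of_le (hopen.measure_pos volume hne) (measure_mono ?_)
    rintro x ⟨h1, h2⟩
    refine ⟨?_, Metric.ball_subset_closedBall h1⟩
    simp only [Function.mem_support]
    exact ne_of_gt h2

end Pool.Agent.Helper6_AvgControl
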