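import Mathlib

/-! The averaged symbol `m_t(ξ) = E[exp(-α t ξ^κ)]`. -/

set_option autoImplicit false

open Complex Filter Set MeasureTheory
open scoped Topology

namespace Pool.Agent.Helper6_AvgControl

lemma cpow_re_nonneg {κ : ℝ} (hκ0 : 0 < κ) (hκ1 : κ ≤ 1) {ξ : ℂ} (hξ : 0 < ξ.re) :
    0 ≤ (ξ ^ (κ : ℂ)).re := by
  rw [cpow_ofReal_re]
  apply mul_nonneg (Real.rpow_nonneg (norm_nonneg _) _)
  apply Real.cos_nonneg_of_neg_pi_div_two_le_of_le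
  · have h1 : |arg ξ| ≤ Real.pi / 2 := abs_arg_le_pi_div_two_iff.2 hξ.le
    have h2 := (abs_le.1 h1).1
    have := Real.pi_pos
    nlinarith
  · have h1 : |arg ξ| ≤ Real.pi / 2 := abs_arg_le_pi_div_two_iff.2 hξ.le
    have h2 := (abs_le.1 h1).2
    have := Real.pi_pos
    nlinarith

lemma norm_exp_sub_le {z w : ℂ} (hz : z.re ≤ 0) (hw : w.re ≤ 0) :
    ‖exp z - exp w‖ ≤ ‖z - w‖ := by
  have hconv : Convex ℝ {z : ℂ | z.re ≤ 0} := convex_halfSpace_re_le 0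
  have := hconv.norm_image_sub_le_of_norm_deriv_le (f := exp) (C := 1)
    (fun x _ => differentiableAt_exp) (fun x hx => by
      rw [Complex.deriv_exp, norm_exp]
      exact Real.exp_le_one_iff.2 hx) hw hz
  simpa using this

lemma cpow_lip {κ : ℝ} (hκ0 : 0 < κ) (hκ1 : κ ≤ 1) {a' : ℝ} (ha' : 0 < a') {ξ ζ : ℂ}
    (hξ : a' < ξ.re) (hζ : a' < ζ.re) :
    ‖ξ ^ (κ : ℂ) - ζ ^ (κ : ℂ)‖ ≤ κ * a' ^ (κ - 1) * ‖ξ - ζ‖ := by
  have hconv : Convex ℝ {z : ℂ | a' < z.re} := convex_halfSpace_re_gt a'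
  have hd : ∀ x ∈ {z : ℂ | a' < z.re}, HasDerivAt (fun z : ℂ => z ^ (κ : ℂ))
      ((κ : ℂ) * x ^ ((κ : ℂ) - 1)) x := by
    intro x hx
    have hx' : x ∈ slitPlane := Or.inl (lt_trans ha' hx)
    have := (hasDerivAt_id x).cpow_const (c := (κ : ℂ)) hx'
    simpa using this
  have := hconv.norm_image_sub_le_of_norm_deriv_le (f := fun z : ℂ => z ^ (κ : ℂ))
    (C := κ * a' ^ (κ - 1))
    (fun x hx => (hd x hx).differentiableAt) (fun x hx => by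
      rw [(hd x hx).deriv, norm_mul, norm_real, Real.norm_of_nonneg hκ0.le]
      apply mul_le_mul_of_nonneg_left _ hκ0.le
      have hx0 : 0 < x.re := lt_trans ha' hx
      have hxne : x ≠ 0 := by
        rintro rfl
        simp at hx0
      have e1 : ((κ : ℂ) - 1) = ((κ - 1 : ℝ) : ℂ) := by push_cast; rfl
      rw [e1, norm_cpow_real]
      apply Real.rpow_le_rpow_of_nonpos ha' _ (by linarith)
      exact (le_of_lt hx).trans (re_le_norm x)) hζ hξ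
  simpa using this

section

set_option linter.unusedSectionVars false

variable {Ω : Type*} [MeasurableSpace Ω] (P : Measure Ω) (α : Ω → ℝ) (κ : ℝ)

/-- `m_t(ξ) = E[exp(-α t ξ^κ)]`. -/
noncomputable def mt (t : ℝ) (ξ : ℂ) : ℂ := ∫ ω, exp (-((α ω * t : ℝ) : ℂ) * ξ ^ (κ : ℂ)) ∂P

variable {P α κ} [IsProbabilityMeasure P]

lemma norm_kernel_le (hκ0 : 0 < κ) (hκ1 : κ ≤ 1) {ω : Ω} (hα : 0 ≤ α ω) {t : ℝ} (ht : 0 ≤ t)
    {ξ : ℂ} (hξ : 0 < ξ.re) : ‖exp (-((α ω * t : ℝ) : ℂ) * ξ ^ (κ : ℂ))‖ ≤ 1 := by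
  rw [norm_exp]
  apply Real.exp_le_one_iff.2
  rw [← ofReal_neg, re_ofReal_mul]
  have := cpow_re_nonneg hκ0 hκ1 hξ
  have h2 : 0 ≤ α ω * t := mul_nonneg hα ht
  nlinarith

lemma re_kernel_nonpos (hκ0 : 0 < κ) (hκ1 : κ ≤ 1) {ω : Ω} (hα : 0 ≤ α ω) {t : ℝ} (ht : 0 ≤ t)
    {ξ : ℂ} (hξ : 0 < ξ.re) : (-((α ω * t : ℝ) : ℂ) * ξ ^ (κ : ℂ)).re ≤ 0 := by
  rw [← ofReal_neg, re_ofReal_mul]
  have := cpow_re_nonneg hκ0 hκ1 hξ
  have h2 : 0 ≤ α ω * t := mul_nonneg hα ht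
  nlinarith

lemma measurable_kernel (hα : Measurable α) (t : ℝ) (ξ : ℂ) :
    Measurable (fun ω => exp (-((α ω * t : ℝ) : ℂ) * ξ ^ (κ : ℂ))) := by
  fun_prop

lemma integrable_kernel (hκ0 : 0 < κ) (hκ1 : κ ≤ 1) (hα : Measurable α) (hα0 : ∀ᵐ ω ∂P, 0 ≤ α ω)
    {t : ℝ} (ht : 0 ≤ t) {ξ : ℂ} (hξ : 0 < ξ.re) :
    Integrable (fun ω => exp (-((α ω * t : ℝ) : ℂ) * ξ ^ (κ : ℂ))) P := by
  apply Integrable.of_bound (C := 1) (measurable_kernel hα t ξ).aestronglyMeasurable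
  filter_upwards [hα0] with ω hω using norm_kernel_le hκ0 hκ1 hω ht hξ

lemma norm_mt_le (hκ0 : 0 < κ) (hκ1 : κ ≤ 1) (hα0 : ∀ᵐ ω ∂P, 0 ≤ α ω)
    {t : ℝ} (ht : 0 ≤ t) {ξ : ℂ} (hξ : 0 < ξ.re) : ‖mt P α κ t ξ‖ ≤ 1 := by
  have : ‖mt P α κ t ξ‖ ≤ 1 * P.real Set.univ := by
    apply norm_integral_le_of_norm_le_const
    filter_upwards [hα0] with ω hω using norm_kernel_le hκ0 hκ1 hω ht hξ
  simpa using this

lemma mt_lip (hκ0 : 0 < κ) (hκ1 : κ ≤ 1) (hα : Measurable α) (hα0 : ∀ᵐ ω ∂P, 0 ≤ α ω)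
    (hα1 : Integrable α P) {a' T : ℝ} (ha' : 0 < a') {t : ℝ} (ht : 0 ≤ t) (htT : t ≤ T) {ξ ζ : ℂ}
    (hξ : a' < ξ.re) (hζ : a' < ζ.re) :
    ‖mt P α κ t ξ - mt P α κ t ζ‖ ≤ ((∫ ω, α ω ∂P) * T * (κ * a' ^ (κ - 1))) * ‖ξ - ζ‖ := by
  have hξ0 : 0 < ξ.re := ha'.trans hξ
  have hζ0 : 0 < ζ.re := ha'.trans hζ
  rw [mt, mt, ← integral_sub (integrable_kernel hκ0 hκ1 hα hα0 ht hξ0)
    (integrable_kernel hκ0 hκ1 hα hα0 ht hζ0)]
  have hK : 0 ≤ κ * a' ^ (κ - 1) := mul_nonneg hκ0.le (Real.rpow_nonneg ha'.le _)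
  have h1 : ‖∫ ω, (exp (-((α ω * t : ℝ) : ℂ) * ξ ^ (κ : ℂ)) -
      exp (-((α ω * t : ℝ) : ℂ) * ζ ^ (κ : ℂ))) ∂P‖
      ≤ ∫ ω, α ω * (T * (κ * a' ^ (κ - 1)) * ‖ξ - ζ‖) ∂P := by
    apply norm_integral_le_of_norm_le (hα1.mul_const _)
    filter_upwards [hα0] with ω hω
    refine (norm_exp_sub_le (re_kernel_nonpos hκ0 hκ1 hω ht hξ0)
      (re_kernel_nonpos hκ0 hκ1 hω ht hζ0)).trans ?_
    rw [← mul_sub, norm_mul, norm_neg, norm_real, Real.norm_of_nonneg (mul_nonneg hω ht)]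
    have h2 := cpow_lip hκ0 hκ1 ha' hξ hζ
    have hT : 0 ≤ α ω * T := mul_nonneg hω (ht.trans htT)
    calc α ω * t * ‖ξ ^ (κ : ℂ) - ζ ^ (κ : ℂ)‖ ≤ α ω * T * (κ * a' ^ (κ - 1) * ‖ξ - ζ‖) := by
          gcongr
      _ = _ := by ring
  refine h1.trans (le_of_eq ?_)
  rw [integral_mul_const]
  ring

lemma mt_lip_t (hκ0 : 0 < κ) (hκ1 : κ ≤ 1) (hα : Measurable α) (hα0 : ∀ᵐ ω ∂P, 0 ≤ α ω)
    (hα1 : Integrable α P) {s t : ℝ} (hs : 0 ≤ s) (ht : 0 ≤ t) {ξ : ℂ} (hξ : 0 < ξ.re) :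
    ‖mt P α κ s ξ - mt P α κ t ξ‖ ≤ ((∫ ω, α ω ∂P) * ‖ξ ^ (κ : ℂ)‖) * |s - t| := by
  rw [mt, mt, ← integral_sub (integrable_kernel hκ0 hκ1 hα hα0 hs hξ)
    (integrable_kernel hκ0 hκ1 hα hα0 ht hξ)]
  have h1 : ‖∫ ω, (exp (-((α ω * s : ℝ) : ℂ) * ξ ^ (κ : ℂ)) -
      exp (-((α ω * t : ℝ) : ℂ) * ξ ^ (κ : ℂ))) ∂P‖
      ≤ ∫ ω, α ω * (|s - t| * ‖ξ ^ (κ : ℂ)‖) ∂P := by
    apply norm_integral_le_of_norm_le (hα1.mul_const _)
    filter_upwards [hα0] with ω hω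
    refine (norm_exp_sub_le (re_kernel_nonpos hκ0 hκ1 hω hs hξ)
      (re_kernel_nonpos hκ0 hκ1 hω ht hξ)).trans ?_
    rw [← sub_mul, norm_mul]
    have : ‖-((α ω * s : ℝ) : ℂ) - -((α ω * t : ℝ) : ℂ)‖ = α ω * |s - t| := by
      rw [← ofReal_neg, ← ofReal_neg, ← ofReal_sub, norm_real, Real.norm_eq_abs]
      rw [show -(α ω * s) - -(α ω * t) = -(α ω * (s - t)) by ring, abs_neg, abs_mul,
        abs_of_nonneg hω]
    rw [this]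
    exact le_of_eq (by ring)
  refine h1.trans (le_of_eq ?_)
  rw [integral_mul_const]
  ring

lemma mt_hasDerivAt (hκ0 : 0 < κ) (hκ1 : κ ≤ 1) (hα : Measurable α) (hα0 : ∀ᵐ ω ∂P, 0 ≤ α ω)
    (hα1 : Integrable α P) {t : ℝ} (ht : 0 ≤ t) {ξ : ℂ} (hξ : 0 < ξ.re) :
    HasDerivAt (mt P α κ t)
      (∫ ω, exp (-((α ω * t : ℝ) : ℂ) * ξ ^ (κ : ℂ)) *
        (-((α ω * t : ℝ) : ℂ) * ((κ : ℂ) * ξ ^ ((κ : ℂ) - 1))) ∂P) ξ := by
  set a' : ℝ := ξ.re / 2 with ha'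
  have ha'0 : 0 < a' := by rw [ha']; linarith
  have ha'ξ : a' < ξ.re := by rw [ha']; linarith
  have hU : {z : ℂ | a' < z.re} ∈ 𝓝 ξ := (isOpen_lt continuous_const continuous_re).mem_nhds ha'ξ
  have hK : 0 ≤ κ * a' ^ (κ - 1) := mul_nonneg hκ0.le (Real.rpow_nonneg ha'0.le _)
  refine (hasDerivAt_integral_of_dominated_loc_of_lip
    (F := fun (z : ℂ) (ω : Ω) => exp (-((α ω * t : ℝ) : ℂ) * z ^ (κ : ℂ)))
    (bound := fun ω => α ω * (t * (κ * a' ^ (κ - 1)))) hU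
    (Eventually.of_forall (fun z => (measurable_kernel hα t z).aestronglyMeasurable))
    (integrable_kernel hκ0 hκ1 hα hα0 ht hξ) ?_ ?_ (hα1.mul_const _) ?_).2
  · apply Measurable.aestronglyMeasurable
    fun_prop
  · filter_upwards [hα0] with ω hω
    rw [lipschitzOnWith_iff_norm_sub_le]
    intro x hx y hy
    have hx0 : 0 < x.re := lt_trans ha'0 hx
    have hy0 : 0 < y.re := lt_trans ha'0 hy
    refine (norm_exp_sub_le (re_kernel_nonpos hκ0 hκ1 hω ht hx0)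
      (re_kernel_nonpos hκ0 hκ1 hω ht hy0)).trans ?_
    rw [← mul_sub, norm_mul, norm_neg, norm_real, Real.norm_of_nonneg (mul_nonneg hω ht)]
    have h2 := cpow_lip hκ0 hκ1 ha'0 hx hy
    have h3 : (↑(Real.nnabs (α ω * (t * (κ * a' ^ (κ - 1))))) : ℝ)
        = α ω * (t * (κ * a' ^ (κ - 1))) := by
      rw [Real.coe_nnabs, abs_of_nonneg]
      positivity
    rw [h3]
    have h4 : 0 ≤ α ω * t := mul_nonneg hω ht
    calc α ω * t * ‖x ^ (κ : ℂ) - y ^ (κ : ℂ)‖ ≤ α ω * t * (κ * a' ^ (κ - 1) * ‖x - y‖) := by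
          gcongr
      _ = _ := by ring
  · refine Eventually.of_forall (fun ω => ?_)
    have hx' : ξ ∈ slitPlane := Or.inl hξ
    have h1 := (hasDerivAt_id ξ).cpow_const (c := (κ : ℂ)) hx'
    have h2 := (h1.const_mul (-((α ω * t : ℝ) : ℂ))).cexp
    simpa using h2

lemma mt_aesm (hκ0 : 0 < κ) (hκ1 : κ ≤ 1) (hα : Measurable α) (hα0 : ∀ᵐ ω ∂P, 0 ≤ α ω)
    (hα1 : Integrable α P) (T : ℝ) {ξ : ℂ} (hξ : 0 < ξ.re) :
    AEStronglyMeasurable (fun t => mt P α κ (T - t) ξ) (volume.restrict (Ioo 0 T)) := by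
  apply ContinuousOn.aestronglyMeasurable _ measurableSet_Ioo
  have h0 : 0 ≤ (∫ ω, α ω ∂P) * ‖ξ ^ (κ : ℂ)‖ :=
    mul_nonneg (integral_nonneg_of_ae hα0) (norm_nonneg _)
  have : LipschitzOnWith (Real.toNNReal ((∫ ω, α ω ∂P) * ‖ξ ^ (κ : ℂ)‖))
      (fun t => mt P α κ (T - t) ξ) (Ioo 0 T) := by
    rw [lipschitzOnWith_iff_norm_sub_le]
    intro s hs t ht
    rw [Real.coe_toNNReal _ h0]
    have := mt_lip_t hκ0 hκ1 hα hα0 hα1 (s := T - s) (t := T - t) (by linarith [hs.2])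
      (by linarith [ht.2]) hξ
    refine this.trans (le_of_eq ?_)
    congr 1
    rw [Real.norm_eq_abs, show T - s - (T - t) = -(s - t) by ring, abs_neg]
  exact this.continuousOn

variable (P α κ) in
/-- `m_T(ξ) y + ∫_0^T m_{T-t}(ξ) φ(t) dt`. -/
noncomputable def ww (T y : ℝ) (φ : ℝ → ℝ) (ξ : ℂ) : ℂ :=
  mt P α κ T ξ * y + ∫ t in Ioo 0 T, mt P α κ (T - t) ξ * (φ t : ℂ)

lemma integrable_mt_mul (hκ0 : 0 < κ) (hκ1 : κ ≤ 1) (hα : Measurable α)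
    (hα0 : ∀ᵐ ω ∂P, 0 ≤ α ω)
    (hα1 : Integrable α P) (T : ℝ) {ξ : ℂ} (hξ : 0 < ξ.re) {φ : ℝ → ℝ}
    (hφ : IntegrableOn φ (Ioo 0 T)) :
    IntegrableOn (fun t => mt P α κ (T - t) ξ * (φ t : ℂ)) (Ioo 0 T) := by
  apply Integrable.bdd_mul (c := 1) (hφ.ofReal) (mt_aesm hκ0 hκ1 hα hα0 hα1 T hξ)
  filter_upwards [ae_restrict_mem measurableSet_Ioo] with t ht
  exact norm_mt_le hκ0 hκ1 hα0 (by linarith [ht.2]) hξ

lemma ww_norm_le (hκ0 : 0 < κ) (hκ1 : κ ≤ 1) (hα0 : ∀ᵐ ω ∂P, 0 ≤ α ω)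
    {T : ℝ} (hT : 0 ≤ T) {y : ℝ} {ξ : ℂ} (hξ : 0 < ξ.re) {φ : ℝ → ℝ}
    (hφ : IntegrableOn φ (Ioo 0 T)) :
    ‖ww P α κ T y φ ξ‖ ≤ |y| + ∫ t in Ioo 0 T, |φ t| := by
  rw [ww]
  refine (norm_add_le _ _).trans (add_le_add ?_ ?_)
  · rw [norm_mul, norm_real, Real.norm_eq_abs]
    exact mul_le_of_le_one_left (abs_nonneg _) (norm_mt_le hκ0 hκ1 hα0 hT hξ)
  · apply norm_integral_le_of_norm_le hφ.abs
    filter_upwards [ae_restrict_mem measurableSet_Ioo] with t ht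
    rw [norm_mul, norm_real, Real.norm_eq_abs]
    exact mul_le_of_le_one_left (abs_nonneg _)
      (norm_mt_le hκ0 hκ1 hα0 (by linarith [ht.2]) hξ)

lemma ww_lip (hκ0 : 0 < κ) (hκ1 : κ ≤ 1) (hα : Measurable α) (hα0 : ∀ᵐ ω ∂P, 0 ≤ α ω)
    (hα1 : Integrable α P) {a' T : ℝ} (hT : 0 ≤ T) (ha' : 0 < a') {y : ℝ} {ξ ζ : ℂ}
    (hξ : a' < ξ.re) (hζ : a' < ζ.re) {φ : ℝ → ℝ} (hφ : IntegrableOn φ (Ioo 0 T)) :
    ‖ww P α κ T y φ ξ - ww P α κ T y φ ζ‖ ≤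
      ((∫ ω, α ω ∂P) * T * (κ * a' ^ (κ - 1))) * (|y| + ∫ t in Ioo 0 T, |φ t|) * ‖ξ - ζ‖ := by
  have hξ0 : 0 < ξ.re := ha'.trans hξ
  have hζ0 : 0 < ζ.re := ha'.trans hζ
  set K := ((∫ ω, α ω ∂P) * T * (κ * a' ^ (κ - 1))) with hK
  have e1 : ww P α κ T y φ ξ - ww P α κ T y φ ζ =
      (mt P α κ T ξ - mt P α κ T ζ) * y +
        ∫ t in Ioo 0 T, (mt P α κ (T - t) ξ - mt P α κ (T - t) ζ) * (φ t : ℂ) := by
    simp only [ww, sub_mul]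
    rw [integral_sub (integrable_mt_mul hκ0 hκ1 hα hα0 hα1 T hξ0 hφ)
      (integrable_mt_mul hκ0 hκ1 hα hα0 hα1 T hζ0 hφ)]
    ring
  rw [e1]
  have h1 : ‖(mt P α κ T ξ - mt P α κ T ζ) * (y : ℂ)‖ ≤ K * |y| * ‖ξ - ζ‖ := by
    rw [norm_mul, norm_real, Real.norm_eq_abs]
    have := mt_lip hκ0 hκ1 hα hα0 hα1 ha' hT le_rfl hξ hζ
    calc ‖mt P α κ T ξ - mt P α κ T ζ‖ * |y| ≤ (K * ‖ξ - ζ‖) * |y| := by gcongr
      _ = _ := by ring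
  have h2 : ‖∫ t in Ioo 0 T, (mt P α κ (T - t) ξ - mt P α κ (T - t) ζ) * (φ t : ℂ)‖
      ≤ ∫ t in Ioo 0 T, |φ t| * (K * ‖ξ - ζ‖) := by
    apply norm_integral_le_of_norm_le (hφ.abs.mul_const _)
    filter_upwards [ae_restrict_mem measurableSet_Ioo] with t ht
    rw [norm_mul, norm_real, Real.norm_eq_abs, mul_comm]
    apply mul_le_mul_of_nonneg_left _ (abs_nonneg _)
    exact mt_lip hκ0 hκ1 hα hα0 hα1 ha' (by linarith [ht.2]) (by linarith [ht.1]) hξ hζ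
  rw [integral_mul_const] at h2
  calc _ ≤ _ := norm_add_le _ _
    _ ≤ K * |y| * ‖ξ - ζ‖ + (∫ t in Ioo 0 T, |φ t|) * (K * ‖ξ - ζ‖) := add_le_add h1 h2
    _ = _ := by ring

lemma ww_differentiableOn (hκ0 : 0 < κ) (hκ1 : κ ≤ 1) (hα : Measurable α)
    (hα0 : ∀ᵐ ω ∂P, 0 ≤ α ω)
    (hα1 : Integrable α P) {T : ℝ} (hT : 0 ≤ T) {y : ℝ} {φ : ℝ → ℝ}
    (hφ : IntegrableOn φ (Ioo 0 T)) :
    DifferentiableOn ℂ (ww P α κ T y φ) {z | 0 < z.re} := by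
  intro ξ hξ
  have hξ' : 0 < ξ.re := hξ
  apply DifferentiableAt.differentiableWithinAt
  have h1 : DifferentiableAt ℂ (mt P α κ T) ξ :=
    (mt_hasDerivAt hκ0 hκ1 hα hα0 hα1 hT hξ').differentiableAt
  set a' : ℝ := ξ.re / 2 with ha'
  have ha'0 : 0 < a' := by rw [ha']; linarith
  have ha'ξ : a' < ξ.re := by rw [ha']; linarith
  have hU : {z : ℂ | a' < z.re} ∈ 𝓝 ξ := (isOpen_lt continuous_const continuous_re).mem_nhds ha'ξ
  have hU0 : {z : ℂ | 0 < z.re} ∈ 𝓝 ξ := (isOpen_lt continuous_const continuous_re).mem_nhds hξ'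
  have hK : 0 ≤ κ * a' ^ (κ - 1) := mul_nonneg hκ0.le (Real.rpow_nonneg ha'0.le _)
  have hKK : 0 ≤ (∫ ω, α ω ∂P) * T * (κ * a' ^ (κ - 1)) :=
    mul_nonneg (mul_nonneg (integral_nonneg_of_ae hα0) hT) hK
  -- measurability of the derivative
  have hmeas : AEStronglyMeasurable (fun t => deriv (mt P α κ (T - t)) ξ)
      (volume.restrict (Ioo 0 T)) := by
    have hlim : ∀ᵐ t ∂(volume.restrict (Ioo 0 T)), Tendsto
        (fun n : ℕ => (n + 1 : ℂ) * (mt P α κ (T - t) (ξ + (1 / ((n : ℂ) + 1))) -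
          mt P α κ (T - t) ξ)) atTop (𝓝 (deriv (mt P α κ (T - t)) ξ)) := by
      filter_upwards [ae_restrict_mem measurableSet_Ioo] with t ht
      have hd := (mt_hasDerivAt hκ0 hκ1 hα hα0 hα1 (t := T - t) (by linarith [ht.2]) hξ')
      rw [hd.deriv]
      have hs := hd.tendsto_slope_zero
      have hseq : Tendsto (fun n : ℕ => (1 / ((n : ℂ) + 1))) atTop (𝓝[≠] 0) := by
        rw [tendsto_nhdsWithin_iff]
        refine ⟨tendsto_one_div_add_atTop_nhds_zero_nat, Eventually.of_forall (fun n => ?_)⟩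
        simp only [mem_compl_iff, mem_singleton_iff, one_div, inv_eq_zero]
        exact Nat.cast_add_one_ne_zero n
      have := hs.comp hseq
      refine this.congr (fun n => ?_)
      simp only [Function.comp_apply, one_div, inv_inv, smul_eq_mul]
    refine aestronglyMeasurable_of_tendsto_ae atTop (fun n => ?_) hlim
    apply AEStronglyMeasurable.const_mul
    apply AEStronglyMeasurable.sub
    · apply mt_aesm hκ0 hκ1 hα hα0 hα1 T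
      simp only [add_re, one_div]
      have : ((n : ℂ) + 1)⁻¹.re = ((n : ℝ) + 1)⁻¹ := by
        rw [← Nat.cast_add_one, ← ofReal_natCast, ← ofReal_inv, ofReal_re]; push_cast; rfl
      rw [this]
      positivity
    · exact mt_aesm hκ0 hκ1 hα hα0 hα1 T hξ'
  have h2 : HasDerivAt (fun ξ => ∫ t in Ioo 0 T, mt P α κ (T - t) ξ * (φ t : ℂ))
      (∫ t in Ioo 0 T, deriv (mt P α κ (T - t)) ξ * (φ t : ℂ)) ξ := by
    refine (hasDerivAt_integral_of_dominated_loc_of_lip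
      (F := fun (z : ℂ) (t : ℝ) => mt P α κ (T - t) z * (φ t : ℂ))
      (bound := fun t => ((∫ ω, α ω ∂P) * T * (κ * a' ^ (κ - 1))) * |φ t|) hU
      ?_ (integrable_mt_mul hκ0 hκ1 hα hα0 hα1 T hξ' hφ) ?_ ?_ (hφ.abs.const_mul _) ?_).2
    · filter_upwards [hU0] with z hz
      exact (integrable_mt_mul hκ0 hκ1 hα hα0 hα1 T hz hφ).aestronglyMeasurable
    · exact hmeas.mul (hφ.ofReal.aestronglyMeasurable)
    · filter_upwards [ae_restrict_mem measurableSet_Ioo] with t ht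
      rw [lipschitzOnWith_iff_norm_sub_le]
      intro x hx y hy
      rw [← sub_mul, norm_mul, norm_real, Real.norm_eq_abs, Real.coe_nnabs,
        abs_of_nonneg (mul_nonneg hKK (abs_nonneg _))]
      have := mt_lip hκ0 hκ1 hα hα0 hα1 (T := T) ha'0 (t := T - t) (by linarith [ht.2])
        (by linarith [ht.1]) hx hy
      calc ‖mt P α κ (T - t) x - mt P α κ (T - t) y‖ * |φ t|
          ≤ ((∫ ω, α ω ∂P) * T * (κ * a' ^ (κ - 1)) * ‖x - y‖) * |φ t| := by gcongr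
        _ = _ := by ring
    · filter_upwards [ae_restrict_mem measurableSet_Ioo] with t ht
      have hd := (mt_hasDerivAt hκ0 hκ1 hα hα0 hα1 (t := T - t) (by linarith [ht.2]) hξ')
      exact (hd.differentiableAt.hasDerivAt).mul_const _
  exact (h1.mul_const _).add h2.differentiableAt

end

end Pool.Agent.Helper6_AvgControl
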