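import Pool.Agent.Helper6_AvgControl.Series
import Pool.Agent.Helper6_AvgControl.Control
import Pool.Agent.Helper6_AvgControl.Agmon
import Pool.Agent.Helper6_AvgControl.Geometry

/-! The main theorem: lack of averaged null controllability for `γ ≤ 1/2`. -/

set_option autoImplicit false

open MeasureTheory Set Filter
open scoped RealInnerProductSpace Topology ENNReal Gradient

namespace Pool.Agent.Helper6_AvgControl

variable {n : ℕ} {G G₀ : Set (EE n)}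

/-! ### the exponential weight -/

/-- `η(x) = exp(s χ(x)) - 1`. -/
noncomputable def wt (s : ℝ) (χ : EE n → ℝ) (x : EE n) : ℝ := Real.exp (s * χ x) - 1

lemma isTest_wt {χ : EE n → ℝ} (h : IsTest G χ) (s : ℝ) : IsTest G (wt s χ) := by
  have h0 : (fun t : ℝ => Real.exp (s * t) - 1) 0 = 0 := by simp
  refine ⟨?_, ?_, ?_⟩
  · exact (Real.contDiff_exp.comp (contDiff_const.mul h.1)).sub contDiff_const
  · exact h.2.1.comp_left (g := fun t : ℝ => Real.exp (s * t) - 1) h0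
  · refine (closure_mono ?_).trans h.2.2
    intro x hx hx0
    apply hx
    show Real.exp (s * χ x) - 1 = 0
    rw [hx0]; simp

lemma grad_wt {χ : EE n → ℝ} (h : IsTest G χ) (s : ℝ) (x : EE n) :
    gradient (wt s χ) x = (s * Real.exp (s * χ x)) • gradient χ x := by
  have h1 : HasFDerivAt χ (fderiv ℝ χ x) x := (h.differentiableAt x).hasFDerivAt
  have h2 := ((h1.const_mul s).exp).sub_const 1
  rw [grad_eq, show fderiv ℝ (wt s χ) x = _ from h2.fderiv, map_smul, map_smul, smul_smul,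
    ← grad_eq, mul_comm]

lemma grad_wt_sq {χ : EE n → ℝ} (h : IsTest G χ) (s : ℝ) {K : ℝ}
    (hK : ∀ x, ‖gradient χ x‖ ≤ K) (x : EE n) :
    ‖gradient (wt s χ) x‖ ^ 2 ≤ (2 * s ^ 2 * K ^ 2) * (1 + wt s χ x ^ 2) := by
  rw [grad_wt h, norm_smul, mul_pow, Real.norm_eq_abs, sq_abs]
  have h1 : ‖gradient χ x‖ ^ 2 ≤ K ^ 2 := pow_le_pow_left₀ (norm_nonneg _) (hK x) 2
  have h2 : (s * Real.exp (s * χ x)) ^ 2 ≤ 2 * s ^ 2 * (1 + wt s χ x ^ 2) := by
    have h3 : Real.exp (s * χ x) = 1 + wt s χ x := by rw [wt]; ring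
    rw [h3]
    nlinarith [mul_nonneg (sq_nonneg s) (sq_nonneg (1 - wt s χ x))]
  calc (s * Real.exp (s * χ x)) ^ 2 * ‖gradient χ x‖ ^ 2
      ≤ (2 * s ^ 2 * (1 + wt s χ x ^ 2)) * K ^ 2 := by
        apply mul_le_mul h2 h1 (by positivity) (by positivity)
    _ = _ := by ring

/-! ### the vector valued symbol -/

section vec

variable {Ω : Type*} [MeasurableSpace Ω] {P : Measure Ω} [IsProbabilityMeasure P] {α : Ω → ℝ}
  {κ T : ℝ}

lemma int_re (hκ0 : 0 < κ) (hκ1 : κ ≤ 1) (hα : Measurable α)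
    (hα0 : ∀ᵐ ω ∂P, 0 ≤ α ω) (hα1 : Integrable α P) {ξ : ℂ} (hξ : 0 < ξ.re)
    {u : ℝ → L2 G} (hu : MemLp u 2 (volume.restrict (Ioo 0 T))) :
    Integrable (fun t => (mt P α κ (T - t) ξ).re • u t) (volume.restrict (Ioo 0 T)) := by
  have hui : Integrable u (volume.restrict (Ioo 0 T)) := hu.integrable (by norm_num)
  have hm : AEStronglyMeasurable (fun t => (mt P α κ (T - t) ξ).re)
      (volume.restrict (Ioo 0 T)) :=
    Complex.continuous_re.comp_aestronglyMeasurable (mt_aesm hκ0 hκ1 hα hα0 hα1 T hξ)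
  apply hui.bdd_smul 1 hm
  filter_upwards [ae_restrict_mem measurableSet_Ioo] with t ht
  rw [Real.norm_eq_abs]
  exact (Complex.abs_re_le_norm _).trans (norm_mt_le hκ0 hκ1 hα0 (by linarith [ht.2]) hξ)

lemma int_im (hκ0 : 0 < κ) (hκ1 : κ ≤ 1) (hα : Measurable α)
    (hα0 : ∀ᵐ ω ∂P, 0 ≤ α ω) (hα1 : Integrable α P) {ξ : ℂ} (hξ : 0 < ξ.re)
    {u : ℝ → L2 G} (hu : MemLp u 2 (volume.restrict (Ioo 0 T))) :
    Integrable (fun t => (mt P α κ (T - t) ξ).im • u t) (volume.restrict (Ioo 0 T)) := by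
  have hui : Integrable u (volume.restrict (Ioo 0 T)) := hu.integrable (by norm_num)
  have hm : AEStronglyMeasurable (fun t => (mt P α κ (T - t) ξ).im)
      (volume.restrict (Ioo 0 T)) :=
    Complex.continuous_im.comp_aestronglyMeasurable (mt_aesm hκ0 hκ1 hα hα0 hα1 T hξ)
  apply hui.bdd_smul 1 hm
  filter_upwards [ae_restrict_mem measurableSet_Ioo] with t ht
  rw [Real.norm_eq_abs]
  exact (Complex.abs_im_le_norm _).trans (norm_mt_le hκ0 hκ1 hα0 (by linarith [ht.2]) hξ)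

lemma coef_re {e : HilbertBasis ℕ ℝ (L2 G)} (hκ0 : 0 < κ) (hκ1 : κ ≤ 1) (hα : Measurable α)
    (hα0 : ∀ᵐ ω ∂P, 0 ≤ α ω) (hα1 : Integrable α P) {ξ : ℂ} (hξ : 0 < ξ.re)
    (y₀ : L2 G) {u : ℝ → L2 G} (hu : MemLp u 2 (volume.restrict (Ioo 0 T))) (j : ℕ) :
    ⟪e j, (mt P α κ T ξ).re • y₀ + ∫ t in Ioo 0 T, (mt P α κ (T - t) ξ).re • u t⟫ =
      (ww P α κ T ⟪e j, y₀⟫ (fun t => ⟪e j, u t⟫) ξ).re := by
  have hint := int_re hκ0 hκ1 hα hα0 hα1 hξ hu
  rw [inner_add_right, real_inner_smul_right, ← integral_inner hint, ww, Complex.add_re,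
    Complex.re_mul_ofReal]
  congr 1
  have h2 := integrable_mt_mul hκ0 hκ1 hα hα0 hα1 T hξ (coef_integrable (e := e) hu j)
  have h3 := Complex.reCLM.integral_comp_comm h2
  simp only [Complex.reCLM_apply] at h3
  rw [← h3]
  apply integral_congr_ae
  filter_upwards with t
  rw [real_inner_smul_right, Complex.re_mul_ofReal]

lemma coef_im {e : HilbertBasis ℕ ℝ (L2 G)} (hκ0 : 0 < κ) (hκ1 : κ ≤ 1) (hα : Measurable α)
    (hα0 : ∀ᵐ ω ∂P, 0 ≤ α ω) (hα1 : Integrable α P) {ξ : ℂ} (hξ : 0 < ξ.re)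
    (y₀ : L2 G) {u : ℝ → L2 G} (hu : MemLp u 2 (volume.restrict (Ioo 0 T))) (j : ℕ) :
    ⟪e j, (mt P α κ T ξ).im • y₀ + ∫ t in Ioo 0 T, (mt P α κ (T - t) ξ).im • u t⟫ =
      (ww P α κ T ⟪e j, y₀⟫ (fun t => ⟪e j, u t⟫) ξ).im := by
  have hint := int_im hκ0 hκ1 hα hα0 hα1 hξ hu
  rw [inner_add_right, real_inner_smul_right, ← integral_inner hint, ww, Complex.add_im,
    Complex.im_mul_ofReal]
  congr 1
  have h2 := integrable_mt_mul hκ0 hκ1 hα hα0 hα1 T hξ (coef_integrable (e := e) hu j)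
  have h3 := Complex.imCLM.integral_comp_comm h2
  simp only [Complex.imCLM_apply] at h3
  rw [← h3]
  apply integral_congr_ae
  filter_upwards with t
  rw [real_inner_smul_right, Complex.im_mul_ofReal]

/-- a functional vanishing on `y₀` and on the control vanishes on the symbol. -/
lemma mul_symbol_zero (M : L2 G →L[ℝ] L2 G) {f : ℝ → ℝ} (c : ℝ) {y₀ : L2 G} {u : ℝ → L2 G}
    (hint : Integrable (fun t => f t • u t) (volume.restrict (Ioo 0 T)))
    (hy : M y₀ = 0) (hu : ∀ᵐ t ∂(volume.restrict (Ioo 0 T)), M (u t) = 0) :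
    M (c • y₀ + ∫ t in Ioo 0 T, f t • u t) = 0 := by
  rw [map_add, map_smul, hy, smul_zero, zero_add, ← M.integral_comp_comm hint]
  apply integral_eq_zero_of_ae
  filter_upwards [hu] with t ht
  rw [map_smul, ht, smul_zero]
  rfl

end vec

/-! ### from coefficients to vectors -/

lemma exists_vec (e : HilbertBasis ℕ ℝ (L2 G)) {x : ℕ → ℝ} (hx : Summable (fun j => x j ^ 2)) :
    ∃ X : L2 G, (∀ j, ⟪e j, X⟫ = x j) ∧ ‖X‖ ^ 2 = ∑' j, x j ^ 2 := by
  have hmem : Memℓp x 2 := by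
    apply memℓp_gen
    refine hx.congr (fun j => ?_)
    simp
  refine ⟨e.repr.symm ⟨x, hmem⟩, fun j => ?_, ?_⟩
  · rw [← HilbertBasis.repr_apply_apply, LinearIsometryEquiv.apply_symm_apply]
  · rw [← real_inner_self_eq_norm_sq, ← e.tsum_inner_mul_inner]
    apply tsum_congr
    intro j
    rw [real_inner_comm, ← HilbertBasis.repr_apply_apply, LinearIsometryEquiv.apply_symm_apply, sq]

lemma inner_decay {χ : EE n → ℝ} (hχ : IsTest G χ) {hh : L2 G}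
    (hsupp : ∀ᵐ x ∂(volume.restrict G), hh x ≠ 0 → χ x = 1) {s : ℝ} (hs : 1 ≤ s) (X : L2 G) :
    |⟪X, hh⟫| ≤ 2 * Real.exp (-s) * (‖mulOp (wt s χ) ((isTest_wt hχ s).memLp ∞) X‖ * ‖hh‖) := by
  have h1 : (Real.exp s - 1) * ⟪X, hh⟫ =
      ⟪mulOp (wt s χ) ((isTest_wt hχ s).memLp ∞) X, hh⟫ := by
    rw [L2_inner, L2_inner, ← integral_const_mul]
    apply integral_congr_ae
    filter_upwards [hsupp, mulOp_coe (wt s χ) ((isTest_wt hχ s).memLp ∞) X] with x hx hx2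
    rw [hx2]
    by_cases h0 : hh x = 0
    · rw [h0]; ring
    · rw [wt, hx h0, mul_one]; ring
  have h2 : 2 ≤ Real.exp s := by
    have := Real.add_one_le_exp s
    linarith
  have h3 : Real.exp s / 2 * |⟪X, hh⟫| ≤
      ‖mulOp (wt s χ) ((isTest_wt hχ s).memLp ∞) X‖ * ‖hh‖ := by
    calc Real.exp s / 2 * |⟪X, hh⟫| ≤ (Real.exp s - 1) * |⟪X, hh⟫| := by
          apply mul_le_mul_of_nonneg_right _ (abs_nonneg _)
          linarith
      _ = |(Real.exp s - 1) * ⟪X, hh⟫| := by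
          rw [abs_mul, abs_of_nonneg (by linarith : 0 ≤ Real.exp s - 1)]
      _ ≤ _ := by
          rw [h1]; exact abs_real_inner_le_norm _ _
  have h4 : Real.exp (-s) * Real.exp s = 1 := by rw [← Real.exp_add]; simp
  have h5 : 0 < Real.exp (-s) := Real.exp_pos _
  calc |⟪X, hh⟫| = 2 * Real.exp (-s) * (Real.exp s / 2 * |⟪X, hh⟫|) := by
        have : 2 * Real.exp (-s) * (Real.exp s / 2 * |⟪X, hh⟫|) =
          (Real.exp (-s) * Real.exp s) * |⟪X, hh⟫| := by ring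
        rw [this, h4, one_mul]
    _ ≤ _ := by
        apply mul_le_mul_of_nonneg_left h3
        positivity

theorem decay_core {lam : ℕ → ℝ} {e : HilbertBasis ℕ ℝ (L2 G)}
    (hS : IsDirichletSpectrum G lam e) {χ : EE n → ℝ} (hχ : IsTest G χ) {hh : L2 G}
    (hsupp : ∀ᵐ x ∂(volume.restrict G), hh x ≠ 0 → χ x = 1) {K : ℝ} (hK0 : 0 ≤ K)
    (hK : ∀ x, ‖gradient χ x‖ ≤ K) {a b : ℝ} (ha : 0 < a) (hb : 2 * a ≤ |b|)
    {δ : ℝ} (hδ : δ = 1 / (4 * (K + 1))) (hδb : 1 ≤ δ * |b|) {v w : ℕ → ℂ}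
    (hvw : ∀ j, v j * ((lam j : ℂ) - (a + b * Complex.I) ^ 2) = w j) {R S : L2 G}
    (hR : ∀ j, ⟪e j, R⟫ = (w j).re) (hSS : ∀ j, ⟪e j, S⟫ = (w j).im)
    (hMR : mulOp (wt (δ * |b|) χ) ((isTest_wt hχ _).memLp ∞) R = 0)
    (hMS : mulOp (wt (δ * |b|) χ) ((isTest_wt hχ _).memLp ∞) S = 0)
    (hv : Summable (fun j => ‖v j‖ ^ 2)) {B : ℝ} (hB : ∑' j, ‖v j‖ ^ 2 ≤ B) :
    ‖∑' j, v j * ((⟪e j, hh⟫ : ℝ) : ℂ)‖ ≤ 4 * Real.sqrt B * ‖hh‖ * Real.exp (-δ * |b|) := by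
  have hre : ∀ j, (v j).re ^ 2 ≤ ‖v j‖ ^ 2 := fun j => by
    rw [← sq_abs]; exact pow_le_pow_left₀ (abs_nonneg _) (Complex.abs_re_le_norm _) 2
  have him : ∀ j, (v j).im ^ 2 ≤ ‖v j‖ ^ 2 := fun j => by
    rw [← sq_abs]; exact pow_le_pow_left₀ (abs_nonneg _) (Complex.abs_im_le_norm _) 2
  have hsre : Summable (fun j => (v j).re ^ 2) :=
    Summable.of_nonneg_of_le (fun j => sq_nonneg _) hre hv
  have hsim : Summable (fun j => (v j).im ^ 2) :=
    Summable.of_nonneg_of_le (fun j => sq_nonneg _) him hv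
  obtain ⟨X, hX, hXn⟩ := exists_vec e hsre
  obtain ⟨Y, hY, hYn⟩ := exists_vec e hsim
  have hXB : ‖X‖ ^ 2 ≤ B := by
    rw [hXn]; exact (hsre.tsum_le_tsum hre hv).trans hB
  have hYB : ‖Y‖ ^ 2 ≤ B := by
    rw [hYn]; exact (hsim.tsum_le_tsum him hv).trans hB
  have hB0 : 0 ≤ B := (sq_nonneg _).trans hXB
  -- relations
  have hsq : ((a : ℂ) + b * Complex.I) ^ 2 = ((a ^ 2 - b ^ 2 : ℝ) : ℂ) +
      ((2 * a * b : ℝ) : ℂ) * Complex.I := by
    push_cast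
    ring_nf
    rw [Complex.I_sq]; ring
  have h1 : ∀ j, lam j * ⟪e j, X⟫ = -(b ^ 2 - a ^ 2) * ⟪e j, X⟫ - (2 * a * b) * ⟪e j, Y⟫ +
      ⟪e j, R⟫ := by
    intro j
    rw [hX, hY, hR, ← hvw j, hsq]
    simp only [Complex.mul_re, Complex.sub_re, Complex.add_re, Complex.sub_im, Complex.add_im,
      Complex.mul_im, Complex.ofReal_re, Complex.ofReal_im, Complex.I_re, Complex.I_im]
    ring
  have h2 : ∀ j, lam j * ⟪e j, Y⟫ = -(b ^ 2 - a ^ 2) * ⟪e j, Y⟫ + (2 * a * b) * ⟪e j, X⟫ +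
      ⟪e j, S⟫ := by
    intro j
    rw [hX, hY, hSS, ← hvw j, hsq]
    simp only [Complex.mul_re, Complex.sub_re, Complex.add_re, Complex.sub_im, Complex.add_im,
      Complex.mul_im, Complex.ofReal_re, Complex.ofReal_im, Complex.I_re, Complex.I_im]
    ring
  have hag := agmon hS h1 h2 (isTest_wt hχ (δ * |b|)) (grad_wt_sq hχ (δ * |b|) hK) hMR hMS
  set MX := ‖mulOp (wt (δ * |b|) χ) ((isTest_wt hχ _).memLp ∞) X‖ with hMX
  set MY := ‖mulOp (wt (δ * |b|) χ) ((isTest_wt hχ _).memLp ∞) Y‖ with hMY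
  have hδ0 : 0 < δ := by rw [hδ]; positivity
  have hδK : δ ^ 2 * K ^ 2 ≤ 1 / 16 := by
    rw [hδ, div_pow, one_pow, mul_pow]
    rw [div_mul_eq_mul_div, one_mul, div_le_div_iff₀ (by positivity) (by norm_num)]
    nlinarith
  have hb2 : 4 * a ^ 2 ≤ b ^ 2 := by
    have : (2 * a) ^ 2 ≤ |b| ^ 2 := pow_le_pow_left₀ (by positivity) hb 2
    rw [sq_abs] at this; linarith
  have hbpos : 0 < b ^ 2 := by nlinarith [sq_nonneg a, pow_pos ha 2]
  have hq : 2 * (δ * |b|) ^ 2 * K ^ 2 ≤ b ^ 2 / 8 := by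
    rw [mul_pow, sq_abs]
    calc 2 * (δ ^ 2 * b ^ 2) * K ^ 2 = 2 * b ^ 2 * (δ ^ 2 * K ^ 2) := by ring
      _ ≤ 2 * b ^ 2 * (1 / 16) := by gcongr
      _ = _ := by ring
  have hA : MX ^ 2 + MY ^ 2 ≤ B := by
    have hMnn : 0 ≤ MX ^ 2 + MY ^ 2 := by positivity
    have hq0 : 0 ≤ 2 * (δ * |b|) ^ 2 * K ^ 2 := by positivity
    have l1 : (5 / 8 * b ^ 2) * (MX ^ 2 + MY ^ 2) ≤
        (b ^ 2 - a ^ 2 - 2 * (δ * |b|) ^ 2 * K ^ 2) * (MX ^ 2 + MY ^ 2) := by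
      apply mul_le_mul_of_nonneg_right _ hMnn
      linarith
    have l2 : 2 * (δ * |b|) ^ 2 * K ^ 2 * (‖X‖ ^ 2 + ‖Y‖ ^ 2) ≤ (b ^ 2 / 8) * (2 * B) := by
      apply mul_le_mul hq (by linarith) (by positivity) (by positivity)
    have l3 : (5 / 8 * b ^ 2) * (MX ^ 2 + MY ^ 2) ≤ (5 / 8 * b ^ 2) * B := by
      have : (b ^ 2 / 8) * (2 * B) ≤ (5 / 8 * b ^ 2) * B := by nlinarith
      linarith
    exact le_of_mul_le_mul_left l3 (by positivity)
  have hMXB : MX ≤ Real.sqrt B := by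
    apply Real.le_sqrt_of_sq_le; nlinarith [sq_nonneg MY]
  have hMYB : MY ≤ Real.sqrt B := by
    apply Real.le_sqrt_of_sq_le; nlinarith [sq_nonneg MX]
  -- the sum
  have hsum : HasSum (fun j => v j * ((⟪e j, hh⟫ : ℝ) : ℂ))
      (((⟪X, hh⟫ : ℝ) : ℂ) + ((⟪Y, hh⟫ : ℝ) : ℂ) * Complex.I) := by
    have s1 := (e.hasSum_inner_mul_inner X hh)
    have s2 := (e.hasSum_inner_mul_inner Y hh)
    have s3 := (Complex.hasSum_ofReal.2 s1).add
      ((Complex.hasSum_ofReal.2 s2).mul_right Complex.I)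
    have s4 : (fun j => v j * ((⟪e j, hh⟫ : ℝ) : ℂ)) =
        fun j => ((⟪X, e j⟫ * ⟪e j, hh⟫ : ℝ) : ℂ) +
          ((⟪Y, e j⟫ * ⟪e j, hh⟫ : ℝ) : ℂ) * Complex.I := by
      funext j
      rw [real_inner_comm (e j) X, hX j, real_inner_comm (e j) Y, hY j]
      have := Complex.re_add_im (v j)
      calc v j * ((⟪e j, hh⟫ : ℝ) : ℂ)
          = (((v j).re : ℂ) + (v j).im * Complex.I) * ((⟪e j, hh⟫ : ℝ) : ℂ) := by rw [this]
        _ = _ := by push_cast; ring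
    rw [s4]
    exact s3
  rw [hsum.tsum_eq]
  have hXi := inner_decay hχ hsupp hδb X
  have hYi := inner_decay hχ hsupp hδb Y
  rw [← hMX] at hXi
  rw [← hMY] at hYi
  have hexp : 0 < Real.exp (-(δ * |b|)) := Real.exp_pos _
  calc ‖((⟪X, hh⟫ : ℝ) : ℂ) + ((⟪Y, hh⟫ : ℝ) : ℂ) * Complex.I‖
      ≤ |⟪X, hh⟫| + |⟪Y, hh⟫| := by
        refine (norm_add_le _ _).trans ?_
        rw [norm_mul, Complex.norm_I, mul_one, Complex.norm_real, Complex.norm_real,
          Real.norm_eq_abs, Real.norm_eq_abs]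
    _ ≤ 2 * Real.exp (-(δ * |b|)) * (Real.sqrt B * ‖hh‖) +
        2 * Real.exp (-(δ * |b|)) * (Real.sqrt B * ‖hh‖) := by
        apply add_le_add
        · refine hXi.trans ?_
          gcongr
        · refine hYi.trans ?_
          gcongr
    _ = _ := by rw [neg_mul]; ring

/-- **Main theorem.** -/
theorem no_control {G G₀ : Set (EE n)} (hG₀ne : G₀.Nonempty)
    (hint : (interior (G \ closure G₀)).Nonempty) {T : ℝ} (hT : 0 < T) {lam : ℕ → ℝ}
    {e : HilbertBasis ℕ ℝ (L2 G)} (hS : IsDirichletSpectrum G lam e)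
    {Ω : Type*} [MeasurableSpace Ω] {P : Measure Ω} [IsProbabilityMeasure P] {α : Ω → ℝ}
    (hα : Measurable α) (hα0 : ∀ᵐ ω ∂P, 0 ≤ α ω) (hα1 : Integrable α P)
    {γ : ℝ} (hγ0 : 0 < γ) (hγ1 : γ ≤ 1 / 2) :
    ¬ NullControllableInAverage G₀ lam e γ T P α := by
  rintro ⟨C, hC, H⟩
  -- geometry
  obtain ⟨x₀, hx₀⟩ := hint
  obtain ⟨ε, hε, hball⟩ := Metric.isOpen_iff.1 isOpen_interior x₀ hx₀
  have hballG : Metric.ball x₀ ε ⊆ G \ closure G₀ := hball.trans interior_subset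
  have hn : Nonempty (Fin n) := by
    by_contra hcon
    rw [not_nonempty_iff] at hcon
    have hsub : Subsingleton (EE n) := by
      refine ⟨fun x y => ?_⟩
      ext i
      exact (hcon.false i).elim
    obtain ⟨z, hz⟩ := hG₀ne
    have : x₀ = z := Subsingleton.elim _ _
    exact (hballG (Metric.mem_ball_self hε)).2 (this ▸ subset_closure hz)
  obtain ⟨i⟩ := hn
  -- parameters
  set κ : ℝ := 2 * γ with hκ
  have hκ0 : 0 < κ := by rw [hκ]; linarith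
  have hκ1 : κ ≤ 1 := by rw [hκ]; linarith
  set μ : ℕ → ℝ := fun j => Real.sqrt (lam j) with hμ
  have hμpos : ∀ j, 0 < μ j := fun j => Real.sqrt_pos.2 (hS.pos j)
  have hμ0 : ∀ j, μ 0 ≤ μ j := fun j => Real.sqrt_le_sqrt (hS.mono (Nat.zero_le j))
  set a' : ℝ := μ 0 / 4 with ha'
  set a : ℝ := μ 0 / 2 with ha
  have hp0 := hμpos 0
  have ha'0 : 0 < a' := by rw [ha']; linarith
  have ha0 : 0 < a := by rw [ha]; linarith
  have haa : a' < a := by rw [ha', ha]; linarith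
  have hμa : ∀ j, a' < μ j := fun j => by
    have := hμ0 j
    rw [ha']; linarith
  obtain ⟨χ, Ψ, hΨ, y₀, hχ, hχ0, hΨ0, hsupp, hχy, hpos⟩ := exists_data (G := G) hε hballG i a
  obtain ⟨u, hu, huG, -, y, hy, havg⟩ := H y₀
  -- the test vector
  have htest : IsTest G (fun x => (-1) * lapl Ψ x + (-a ^ 2) * Ψ x) :=
    (hΨ.lapl.const_mul (-1)).add (hΨ.const_mul (-a ^ 2))
  set hh : L2 G := (htest.memLp 2).toLp _ with hhh
  set ΨL : L2 G := (hΨ.memLp 2).toLp Ψ with hΨL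
  have hhdec : hh = (-1 : ℝ) • (hΨ.lapl.memLp 2).toLp (lapl Ψ) + (-a ^ 2) • ΨL := by
    rw [hhh, hΨL, ← MemLp.toLp_const_smul, ← MemLp.toLp_const_smul, ← MemLp.toLp_add]
    rfl
  have hg : ∀ j, ⟪e j, hh⟫ = (lam j - a ^ 2) * ⟪e j, ΨL⟫ := by
    intro j
    have h1 := eigen_lapl (hS.eigen j) hΨ
    rw [hhdec, inner_add_right, real_inner_smul_right, real_inner_smul_right]
    linear_combination h1
  -- the coefficient functions
  set w : ℕ → ℂ → ℂ := fun j => ww P α κ T ⟪e j, y₀⟫ (fun t => ⟪e j, u t⟫) with hw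
  set N : ℕ → ℝ := NN e T y₀ u with hN
  have hφ : ∀ j, IntegrableOn (fun t => ⟪e j, u t⟫) (Ioo 0 T) := fun j => coef_integrable hu j
  have hw0 : ∀ j, w j (μ j) = 0 := fun j => avg_zero hS hα hα0 hT hu hy havg j
  have hwd : ∀ j, DifferentiableOn ℂ (w j) {z | a' < z.re} := fun j =>
    (ww_differentiableOn hκ0 hκ1 hα hα0 hα1 hT.le (hφ j)).mono
      (fun z hz => lt_trans ha'0 hz)
  set L : ℝ := (∫ ω, α ω ∂P) * T * (κ * a' ^ (κ - 1)) with hL
  have hL0 : 0 ≤ L := by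
    rw [hL]
    have := integral_nonneg_of_ae hα0
    have := Real.rpow_nonneg ha'0.le (κ - 1)
    positivity
  have hNnn : ∀ j, 0 ≤ N j := fun j => NN_nonneg y₀ j
  have hwlip : ∀ j, ∀ ξ ζ : ℂ, a' < ξ.re → a' < ζ.re → ‖w j ξ - w j ζ‖ ≤ L * N j * ‖ξ - ζ‖ :=
    fun j ξ ζ hξ hζ => ww_lip hκ0 hκ1 hα hα0 hα1 hT.le ha'0 hξ hζ (hφ j)
  have hNsum : Summable (fun j => N j ^ 2) := summable_NN hT y₀ hu
  have hgsum : Summable (fun j => ⟪e j, hh⟫ ^ 2) := by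
    refine (e.summable_inner_mul_inner hh hh).congr (fun j => ?_)
    rw [real_inner_comm, sq]
  have hNg : Summable (fun j => N j * |⟪e j, hh⟫|) := by
    refine Summable.of_nonneg_of_le (fun j => mul_nonneg (hNnn j) (abs_nonneg _)) (fun j => ?_)
      (hNsum.add hgsum)
    have := sq_abs ⟪e j, hh⟫
    nlinarith [sq_nonneg (N j - |⟪e j, hh⟫|), sq_nonneg (N j + |⟪e j, hh⟫|)]
  -- bound for the regularised quotients
  have hvb : ∀ j (ξ : ℂ), a' < ξ.re → ‖vv μ w j ξ‖ ≤ (L / μ 0) * N j := fun j ξ hξ =>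
    vv_bound j ha'0 (hμa j) (hμpos 0) (hμ0 j) (mul_nonneg hL0 (hNnn j)) (hwlip j) ξ hξ
  have hvsum : ∀ (ξ : ℂ), a' < ξ.re → Summable (fun j => ‖vv μ w j ξ‖ ^ 2) := fun ξ hξ => by
    refine Summable.of_nonneg_of_le (fun j => sq_nonneg _) (fun j => ?_)
      (hNsum.mul_left ((L / μ 0) ^ 2))
    calc ‖vv μ w j ξ‖ ^ 2 ≤ ((L / μ 0) * N j) ^ 2 :=
          pow_le_pow_left₀ (norm_nonneg _) (hvb j ξ hξ) 2
      _ = _ := by ring
  set B : ℝ := ∑' j, (L / μ 0) ^ 2 * N j ^ 2 with hB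
  have hvB : ∀ (ξ : ℂ), a' < ξ.re → ∑' j, ‖vv μ w j ξ‖ ^ 2 ≤ B := fun ξ hξ => by
    refine (hvsum ξ hξ).tsum_le_tsum (fun j => ?_) (hNsum.mul_left ((L / μ 0) ^ 2))
    calc ‖vv μ w j ξ‖ ^ 2 ≤ ((L / μ 0) * N j) ^ 2 :=
          pow_le_pow_left₀ (norm_nonneg _) (hvb j ξ hξ) 2
      _ = _ := by ring
  -- gradient bound for χ
  obtain ⟨K, hK⟩ :=
    (hasCompactSupport_grad hχ.2.1).exists_bound_of_continuous (continuous_grad hχ.contDiff_one)
  have hK0 : 0 ≤ K := (norm_nonneg _).trans (hK x₀)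
  set δ : ℝ := 1 / (4 * (K + 1)) with hδ
  have hδ0 : 0 < δ := by rw [hδ]; positivity
  have hsupp' : ∀ᵐ x ∂(volume.restrict G), hh x ≠ 0 → χ x = 1 := by
    filter_upwards [(htest.memLp 2).coeFn_toLp] with x hx hne
    rw [hhh, hx] at hne
    apply hsupp
    intro h0
    apply hne
    linear_combination h0
  -- the multiplication operators kill the symbol
  have hMy : ∀ s, mulOp (wt s χ) ((isTest_wt hχ s).memLp ∞) y₀ = 0 := by
    intro s
    rw [Lp.eq_zero_iff_ae_eq_zero]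
    filter_upwards [mulOp_coe (wt s χ) ((isTest_wt hχ s).memLp ∞) y₀, hχy] with x h1 h2
    rw [h1, Pi.zero_apply]
    rcases mul_eq_zero.1 h2 with h3 | h3
    · rw [wt, h3]; simp
    · rw [h3, mul_zero]
  have hMu : ∀ s, ∀ᵐ t ∂(volume.restrict (Ioo 0 T)),
      mulOp (wt s χ) ((isTest_wt hχ s).memLp ∞) (u t) = 0 := by
    intro s
    filter_upwards [huG] with t ht
    rw [Lp.eq_zero_iff_ae_eq_zero]
    filter_upwards [mulOp_coe (wt s χ) ((isTest_wt hχ s).memLp ∞) (u t), ht] with x h1 h2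
    rw [h1, Pi.zero_apply]
    by_cases hx : x ∈ G₀
    · rw [wt, hχ0 x hx]; simp
    · rw [h2 hx, mul_zero]
  -- decay on the vertical line
  have hnorm_le : ∀ b : ℝ, ‖∑' j, vv μ w j (a + b * Complex.I) * ((⟪e j, hh⟫ : ℝ) : ℂ)‖ ≤
      ∑' j, (L / μ 0) * (N j * |⟪e j, hh⟫|) := by
    intro b
    apply tsum_of_norm_bounded (hNg.mul_left (L / μ 0)).hasSum
    intro j
    rw [norm_mul, Complex.norm_real, Real.norm_eq_abs, ← mul_assoc]
    apply mul_le_mul_of_nonneg_right _ (abs_nonneg _)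
    exact hvb j _ (by simpa using haa)
  set M₀ : ℝ := ∑' j, (L / μ 0) * (N j * |⟪e j, hh⟫|) with hM₀
  have hM₀0 : 0 ≤ M₀ := (norm_nonneg _).trans (hnorm_le 0)
  set b₀ : ℝ := max (2 * a) (1 / δ) with hb₀
  have hdec : ∀ b : ℝ, ‖∑' j, vv μ w j (a + b * Complex.I) * ((⟪e j, hh⟫ : ℝ) : ℂ)‖ ≤
      (M₀ * Real.exp (δ * b₀) + 4 * Real.sqrt B * ‖hh‖) * Real.exp (-δ * |b|) := by
    intro b
    have hE : 0 < Real.exp (-δ * |b|) := Real.exp_pos _
    by_cases hb : b₀ ≤ |b|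
    · have hξ : a' < ((a : ℂ) + b * Complex.I).re := by simpa using haa
      have hξ0 : 0 < ((a : ℂ) + b * Complex.I).re := by simpa using ha0
      have h1 : 1 ≤ δ * |b| := by
        have : 1 / δ ≤ |b| := (le_max_right _ _).trans hb
        rwa [div_le_iff₀ hδ0, mul_comm] at this
      have h2 := decay_core hS hχ hsupp' hK0 hK ha0 ((le_max_left _ _).trans hb) hδ h1
        (v := fun j => vv μ w j (a + b * Complex.I)) (w := fun j => w j (a + b * Complex.I))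
        (fun j => by
          have h3 := vv_mul j (hw0 j) (hμpos j) _ hξ0
          have h4 : ((μ j : ℝ) : ℂ) ^ 2 = (lam j : ℂ) := by
            rw [← Complex.ofReal_pow, hμ]
            simp only
            rw [Real.sq_sqrt (hS.pos j).le]
          rwa [h4] at h3)
        (fun j => coef_re hκ0 hκ1 hα hα0 hα1 hξ0 y₀ hu j)
        (fun j => coef_im hκ0 hκ1 hα hα0 hα1 hξ0 y₀ hu j)
        (mul_symbol_zero _ _ (int_re hκ0 hκ1 hα hα0 hα1 hξ0 hu) (hMy _) (hMu _))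
        (mul_symbol_zero _ _ (int_im hκ0 hκ1 hα hα0 hα1 hξ0 hu) (hMy _) (hMu _))
        (hvsum _ hξ) (hvB _ hξ)
      refine h2.trans ?_
      apply mul_le_mul_of_nonneg_right _ hE.le
      have : 0 ≤ M₀ * Real.exp (δ * b₀) := by positivity
      linarith
    · push Not at hb
      have h1 : 1 ≤ Real.exp (δ * b₀) * Real.exp (-δ * |b|) := by
        rw [← Real.exp_add]
        apply Real.one_le_exp
        nlinarith
      calc _ ≤ M₀ := hnorm_le b
        _ ≤ M₀ * (Real.exp (δ * b₀) * Real.exp (-δ * |b|)) := by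
            nlinarith
        _ ≤ _ := by
            have : 0 ≤ 4 * Real.sqrt B * ‖hh‖ * Real.exp (-δ * |b|) := by positivity
            nlinarith
  -- apply the uniqueness theorem
  have hzero := series_zero ha'0 a haa (hμpos 0) hμ0 hμa hL0 hNnn hw0 hwd hwlip
    (fun j => ⟪e j, hh⟫) hNg _ δ hδ0 hdec (a : ℂ) (by simp)
  -- evaluate the series at `a`
  have hare : 0 < ((a : ℂ)).re := by simpa using ha0
  have hterm : ∀ j, vv μ w j (a : ℂ) * ((⟪e j, hh⟫ : ℝ) : ℂ) =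
      w j (a : ℂ) * ((⟪e j, ΨL⟫ : ℝ) : ℂ) := by
    intro j
    have h3 := vv_mul j (hw0 j) (hμpos j) (a : ℂ) hare
    have h4 : ((μ j : ℝ) : ℂ) ^ 2 = (lam j : ℂ) := by
      rw [← Complex.ofReal_pow, hμ]
      simp only
      rw [Real.sq_sqrt (hS.pos j).le]
    rw [h4] at h3
    rw [hg j, ← h3]
    push_cast
    ring
  simp only [hterm] at hzero
  -- real part of the series
  set Rv : L2 G := (mt P α κ T (a : ℂ)).re • y₀ +
    ∫ t in Ioo 0 T, (mt P α κ (T - t) (a : ℂ)).re • u t with hRv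
  have hsum : HasSum (fun j => (w j (a : ℂ)).re * ⟪e j, ΨL⟫) ⟪Rv, ΨL⟫ := by
    have s1 := e.hasSum_inner_mul_inner Rv ΨL
    have s2 : (fun j => (w j (a : ℂ)).re * ⟪e j, ΨL⟫) = fun j => ⟪Rv, e j⟫ * ⟪e j, ΨL⟫ := by
      funext j
      rw [real_inner_comm (e j) Rv, hRv, coef_re hκ0 hκ1 hα hα0 hα1 hare y₀ hu j]
    rw [s2]
    exact s1
  have hRz : ⟪Rv, ΨL⟫ = 0 := by
    have h1 := Complex.hasSum_ofReal.2 hsum
    have h2 : (fun j => ((((w j (a : ℂ)).re * ⟪e j, ΨL⟫ : ℝ)) : ℂ)) =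
        fun j => w j (a : ℂ) * ((⟪e j, ΨL⟫ : ℝ) : ℂ) := by
      funext j
      have h3 : w j (a : ℂ) = (((w j (a : ℂ)).re : ℝ) : ℂ) := by
        have := ww_real hα hα0 (κ := κ) (T := T) ha0 (y := ⟪e j, y₀⟫) (hφ j) hT.le
        rw [hw]
        simp only
        rw [this, Complex.ofReal_re]
      rw [Complex.ofReal_mul, ← h3]
    rw [h2] at h1
    have h4 := h1.tsum_eq
    rw [hzero] at h4
    exact_mod_cast h4.symm
  have huΨ : ∀ᵐ t ∂(volume.restrict (Ioo 0 T)), ⟪ΨL, u t⟫ = 0 := by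
    filter_upwards [huG] with t ht
    rw [L2_inner]
    apply integral_eq_zero_of_ae
    filter_upwards [(hΨ.memLp 2).coeFn_toLp, ht] with x h1 h2
    rw [hΨL, h1, Pi.zero_apply]
    by_cases hx : x ∈ G₀
    · rw [hΨ0 x hx, zero_mul]
    · rw [h2 hx, mul_zero]
  have hRe : ⟪Rv, ΨL⟫ = (mt P α κ T (a : ℂ)).re * ⟪y₀, ΨL⟫ := by
    have h5 : ⟪ΨL, ∫ t in Ioo 0 T, (mt P α κ (T - t) (a : ℂ)).re • u t⟫ = 0 := by
      rw [← integral_inner (int_re hκ0 hκ1 hα hα0 hα1 hare hu)]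
      apply integral_eq_zero_of_ae
      filter_upwards [huΨ] with t ht
      rw [real_inner_smul_right, ht, mul_zero]
      rfl
    rw [real_inner_comm] at h5
    rw [hRv, inner_add_left, real_inner_smul_left, h5, add_zero]
  have hmtpos : 0 < (mt P α κ T (a : ℂ)).re := by
    rw [mt_real κ T ha0, Complex.ofReal_re]
    apply integral_exp_pos
    apply Integrable.of_bound (C := 1)
    · apply Measurable.aestronglyMeasurable
      fun_prop
    · filter_upwards [hα0] with ω hω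
      rw [Real.norm_eq_abs, Real.abs_exp]
      apply Real.exp_le_one_iff.2
      have : 0 ≤ α ω * a ^ κ * T :=
        mul_nonneg (mul_nonneg hω (Real.rpow_nonneg ha0.le _)) hT.le
      linarith
  rw [hRe] at hRz
  have := mul_pos hmtpos hpos
  linarith

end Pool.Agent.Helper6_AvgControl
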