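import Pool.Agent.Helper6_AvgControl.Laplace

/-! Duhamel formula for a scalar linear ODE with integrable forcing. -/

set_option autoImplicit false

open Filter Set MeasureTheory
open scoped Topology

namespace Pool.Agent.Helper6_AvgControl

theorem duhamel {c b : ℝ → ℝ} {c0 k T : ℝ} (hT : 0 < T) (hc : ContinuousOn c (Icc 0 T))
    (hb : IntervalIntegrable b volume 0 T)
    (heq : ∀ t ∈ Icc 0 T, c t = c0 - k * (∫ s in (0)..t, c s) + ∫ s in (0)..t, b s) :
    c T = Real.exp (-(k * T)) * c0 + ∫ s in (0)..T, Real.exp (-(k * (T - s))) * b s := by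
  have hcI : IntervalIntegrable c volume 0 T := by
    apply ContinuousOn.intervalIntegrable
    rwa [uIcc_of_le hT.le]
  have h0 : (0 : ℝ) ∈ uIcc 0 T := by simp
  have hC := hcI.absolutelyContinuousOnInterval_intervalIntegral h0
  have hB := hb.absolutelyContinuousOnInterval_intervalIntegral h0
  set cc : ℝ → ℝ := fun t => c0 - k * (∫ s in (0)..t, c s) + ∫ s in (0)..t, b s with hcc
  have hccAC : AbsolutelyContinuousOnInterval cc 0 T := by
    have h1 : AbsolutelyContinuousOnInterval (fun _ : ℝ => c0) 0 T :=
      (LipschitzWith.const c0).lipschitzOnWith.absolutelyContinuousOnInterval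
    have h2 : AbsolutelyContinuousOnInterval (fun _ : ℝ => k) 0 T :=
      (LipschitzWith.const k).lipschitzOnWith.absolutelyContinuousOnInterval
    exact (h1.fun_sub (h2.fun_mul hC)).fun_add hB
  have hE : AbsolutelyContinuousOnInterval (fun t : ℝ => Real.exp (k * t)) 0 T := by
    have hc1 : ContDiff ℝ 1 (fun t : ℝ => Real.exp (k * t)) := by fun_prop
    exact hc1.contDiffOn.absolutelyContinuousOnInterval
  have hf := hE.fun_mul hccAC
  have hint := hf.integral_deriv_eq_sub
  have hderiv : ∫ t in (0)..T, deriv (fun x => Real.exp (k * x) * cc x) t =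
      ∫ t in (0)..T, Real.exp (k * t) * b t := by
    apply intervalIntegral.integral_congr_ae
    filter_upwards [hcI.ae_hasDerivAt_integral, hb.ae_hasDerivAt_integral] with t h1 h2 ht
    have htI : t ∈ uIcc 0 T := uIoc_subset_uIcc ht
    have h1' := h1 htI 0 h0
    have h2' := h2 htI 0 h0
    have htcc : t ∈ Icc 0 T := by rwa [uIcc_of_le hT.le] at htI
    have h3 : HasDerivAt cc (-(k * c t) + b t) t := by
      have := ((h1'.const_mul k).const_sub c0).add h2'
      exact this
    have h4 : HasDerivAt (fun t : ℝ => Real.exp (k * t)) (Real.exp (k * t) * k) t := by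
      have := ((hasDerivAt_id t).const_mul k).exp
      simpa using this
    have h5 := (h4.mul h3).deriv
    have h6 : cc t = c t := (heq t htcc).symm
    rw [h6] at h5
    have h7 : deriv (fun x => Real.exp (k * x) * cc x) t =
      Real.exp (k * t) * k * c t + Real.exp (k * t) * (-(k * c t) + b t) := h5
    rw [h7]; ring
  rw [hderiv] at hint
  have h8 : cc T = c T := (heq T ⟨hT.le, le_rfl⟩).symm
  have h9 : cc 0 = c0 := by simp [hcc]
  rw [h8, h9] at hint
  simp only [mul_zero, Real.exp_zero, one_mul] at hint
  have h10 : c T = Real.exp (-(k * T)) * (∫ t in (0)..T, Real.exp (k * t) * b t) +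
      Real.exp (-(k * T)) * c0 := by
    rw [hint]
    have : Real.exp (-(k * T)) * Real.exp (k * T) = 1 := by
      rw [← Real.exp_add]; simp
    calc c T = (Real.exp (-(k * T)) * Real.exp (k * T)) * c T := by rw [this, one_mul]
      _ = _ := by ring
  rw [h10, ← intervalIntegral.integral_const_mul, add_comm]
  congr 1
  apply intervalIntegral.integral_congr
  intro t _
  simp only
  rw [← mul_assoc, ← Real.exp_add]
  congr 2
  ring

end Pool.Agent.Helper6_AvgControl
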