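import Mathlib

/-! A Carlson type uniqueness lemma from the Phragmen-Lindelof principle. -/

set_option autoImplicit false

open Complex Filter Asymptotics Set Bornology
open scoped Topology

namespace Pool.Agent.Helper6_AvgControl

/-- real part of `w * log w`. -/
lemma re_mul_log (w : ℂ) : (w * log w).re = w.re * Real.log ‖w‖ - w.im * arg w := by
  rw [mul_re, log_re, log_im]

lemma re_mul_log_ge {w : ℂ} (hw : 1 ≤ w.re) : -(Real.pi / 2 * |w.im|) ≤ (w * log w).re := by
  rw [re_mul_log]
  have h1 : 1 ≤ ‖w‖ := hw.trans (re_le_norm w)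
  have h2 : 0 ≤ w.re * Real.log ‖w‖ := mul_nonneg (by linarith) (Real.log_nonneg h1)
  have h3 : |arg w| ≤ Real.pi / 2 := abs_arg_le_pi_div_two_iff.2 (by linarith)
  have h4 : w.im * arg w ≤ |w.im| * (Real.pi / 2) := by
    calc w.im * arg w ≤ |w.im * arg w| := le_abs_self _
      _ = |w.im| * |arg w| := abs_mul _ _
      _ ≤ |w.im| * (Real.pi / 2) := by gcongr
  linarith

/-- A bounded analytic function on a half-plane decaying exponentially along the bounding line
is zero. -/
theorem eq_zero_of_exp_decay (F : ℂ → ℂ) (a' a c C M : ℝ) (ha : a' < a) (hc : 0 < c)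
    (hF : DifferentiableOn ℂ F {z | a' < z.re}) (hbd : ∀ z, a ≤ z.re → ‖F z‖ ≤ M)
    (hdec : ∀ b : ℝ, ‖F (a + b * I)‖ ≤ C * Real.exp (-c * |b|)) :
    ∀ z, a ≤ z.re → F z = 0 := by
  -- the multiplier
  set A : ℝ := 2 * c / Real.pi with hA
  have hpi : 0 < Real.pi := Real.pi_pos
  have hA0 : 0 < A := by positivity
  set m : ℂ → ℂ := fun z => exp (-(A : ℂ) * ((z + 1) * log (z + 1))) with hm
  set f : ℂ → ℂ := fun z => F (a + z) * m z with hf
  have hmnorm : ∀ z : ℂ, 0 ≤ z.re → ‖m z‖ ≤ Real.exp (c * |z.im|) := by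
    intro z hz
    rw [hm]
    simp only
    rw [norm_exp]
    apply Real.exp_le_exp.2
    have h1 : 1 ≤ (z + 1).re := by simp; linarith
    have h2 := re_mul_log_ge h1
    have h3 : (-(A : ℂ) * ((z + 1) * log (z + 1))).re = -A * ((z + 1) * log (z + 1)).re := by
      rw [← ofReal_neg, re_ofReal_mul]
    rw [h3]
    have h4 : (z + 1).im = z.im := by simp
    rw [h4] at h2
    have h5 : A * (Real.pi / 2 * |z.im|) = c * |z.im| := by
      rw [hA]; field_simp
    nlinarith
  have hM0 : 0 ≤ M := (norm_nonneg _).trans (hbd a (by simp))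
  have hfd : DifferentiableOn ℂ f {z | a' - a < z.re ∧ -1 < z.re} := by
    intro z hz
    obtain ⟨hz1, hz2⟩ := hz
    have h1 : DifferentiableAt ℂ F (a + z) := by
      apply (hF (a + z) (by simp; linarith)).differentiableAt
      exact (isOpen_lt continuous_const continuous_re).mem_nhds (by simp; linarith)
    have h2 : DifferentiableAt ℂ (fun z : ℂ => F (a + z)) z := by
      have := DifferentiableAt.comp (f := fun z : ℂ => (a : ℂ) + z) z h1
        (differentiableAt_id.const_add (a : ℂ))
      exact this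
    have h3 : z + 1 ∈ slitPlane := Or.inl (by simp; linarith)
    have h4 : DifferentiableAt ℂ m z := by
      have h5 : DifferentiableAt ℂ (fun z : ℂ => z + 1) z := differentiableAt_id.add_const 1
      exact ((h5.mul (h5.clog h3)).const_mul _).cexp
    exact (h2.mul h4).differentiableWithinAt
  have hcl : DiffContOnCl ℂ f {z | 0 < z.re} := by
    apply DifferentiableOn.diffContOnCl
    rw [closure_setOfPred_lt_re]
    exact hfd.mono (fun z hz => ⟨by simp at hz; linarith, by simp at hz; linarith⟩)
  have hzero := PhragmenLindelof.eq_zero_on_right_half_plane_of_superexponential_decay hcl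
    ⟨1, by norm_num, c, ?_⟩ ?_ ⟨C, ?_⟩
  · intro z hz
    have h1 : f (z - a) = 0 := hzero (by simpa using hz)
    have h2 : m (z - a) ≠ 0 := exp_ne_zero _
    rw [hf] at h1
    simp only at h1
    have h3 := (mul_eq_zero.1 h1).resolve_right h2
    simpa using h3
  · -- growth
    apply IsBigO.of_bound M
    rw [eventually_inf_principal]
    refine Eventually.of_forall (fun z hz => ?_)
    have hz' : 0 ≤ z.re := le_of_lt hz
    rw [hf]
    simp only [norm_mul, Real.norm_eq_abs, Real.abs_exp, Real.rpow_one]
    have h1 : ‖F (a + z)‖ ≤ M := hbd _ (by simp; exact hz')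
    have h2 := hmnorm z hz'
    have h3 : Real.exp (c * |z.im|) ≤ Real.exp (c * ‖z‖) := by
      apply Real.exp_le_exp.2
      exact mul_le_mul_of_nonneg_left (abs_im_le_norm z) hc.le
    calc ‖F (a + z)‖ * ‖m z‖ ≤ M * Real.exp (c * ‖z‖) := by
          apply mul_le_mul h1 (h2.trans h3) (norm_nonneg _) hM0
      _ = _ := rfl
  · -- superexponential decay on the real axis
    intro n
    have h1 : ∀ᶠ x : ℝ in atTop, ‖Real.exp x ^ n * ‖f x‖‖ ≤ M * Real.exp (-x) := by
      have hlog : Tendsto (fun x : ℝ => A * Real.log (x + 1)) atTop atTop :=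
        (Real.tendsto_log_atTop.comp (tendsto_atTop_add_const_right _ 1 tendsto_id)).const_mul_atTop
          hA0
      filter_upwards [hlog.eventually_ge_atTop ((n : ℝ) + 1), eventually_ge_atTop (0 : ℝ)]
        with x hx hx0
      rw [hf]
      simp only [norm_mul, norm_pow, Real.norm_eq_abs, Real.abs_exp, abs_norm]
      have h2 : ‖F (a + x)‖ ≤ M := hbd _ (by simp; exact hx0)
      have h3 : ‖m x‖ = Real.exp (-(A * Real.log (x + 1)) * (x + 1)) := by
        rw [hm]; simp only
        rw [norm_exp]
        congr 1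
        have e1 : ((x : ℂ) + 1) = ((x + 1 : ℝ) : ℂ) := by push_cast; rfl
        rw [e1, ← ofReal_log (by linarith), ← ofReal_mul, ← ofReal_neg, ← ofReal_mul, ofReal_re]
        ring
      rw [h3, ← Real.exp_nat_mul]
      have h4 : Real.exp (n * x) * (‖F (a + x)‖ * Real.exp (-(A * Real.log (x + 1)) * (x + 1)))
          ≤ M * (Real.exp (n * x) * Real.exp (-(A * Real.log (x + 1)) * (x + 1))) := by
        have := Real.exp_pos (n * x)
        have := Real.exp_pos (-(A * Real.log (x + 1)) * (x + 1))
        calc Real.exp (n * x) * (‖F (a + x)‖ * Real.exp (-(A * Real.log (x + 1)) * (x + 1)))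
            = ‖F (a + x)‖ * (Real.exp (n * x) * Real.exp (-(A * Real.log (x + 1)) * (x + 1))) := by
              ring
          _ ≤ _ := by gcongr
      refine h4.trans ?_
      rw [← Real.exp_add]
      apply mul_le_mul_of_nonneg_left _ hM0
      apply Real.exp_le_exp.2
      nlinarith
    have h5 : Tendsto (fun x : ℝ => M * Real.exp (-x)) atTop (𝓝 0) := by
      have := (Real.tendsto_exp_neg_atTop_nhds_zero).const_mul M
      simpa using this
    exact squeeze_zero_norm' h1 h5
  · intro b
    rw [hf]
    simp only [norm_mul]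
    have h1 := hdec b
    have h2 := hmnorm (b * I) (by simp)
    have h3 : (b * I : ℂ).im = b := by simp
    rw [h3] at h2
    have hC : 0 ≤ C * Real.exp (-c * |b|) := (norm_nonneg _).trans h1
    calc ‖F (a + b * I)‖ * ‖m (b * I)‖ ≤ (C * Real.exp (-c * |b|)) * Real.exp (c * |b|) := by
          apply mul_le_mul h1 h2 (norm_nonneg _) hC
      _ = C := by rw [mul_assoc, ← Real.exp_add]; simp

end Pool.Agent.Helper6_AvgControl
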