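import Pool.Agent.Helper6_AvgControl.PL

/-! The series `∑ w_j(ξ) g_j / (μ_j² - ξ²)` with removable singularities. -/

set_option autoImplicit false

open Complex Filter Asymptotics Set
open scoped Topology

namespace Pool.Agent.Helper6_AvgControl

/-- `w_j(ξ) / (μ_j² - ξ²)`, with the singularity at `ξ = μ_j` removed. -/
noncomputable def vv (μ : ℕ → ℝ) (w : ℕ → ℂ → ℂ) (j : ℕ) (ξ : ℂ) : ℂ :=
  -(dslope (w j) (μ j) ξ) / (μ j + ξ)

variable {μ : ℕ → ℝ} {w : ℕ → ℂ → ℂ} {N : ℕ → ℝ} {a' L mm : ℝ}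

lemma add_ne_zero' {x : ℝ} {ξ : ℂ} (hx : 0 < x) (hξ : 0 < ξ.re) : (x : ℂ) + ξ ≠ 0 := by
  intro h
  have := congrArg Complex.re h
  simp at this
  linarith

lemma vv_mul (j : ℕ) (hw : w j (μ j) = 0) (hμ : 0 < μ j) (ξ : ℂ) (hξ : 0 < ξ.re) :
    vv μ w j ξ * ((μ j : ℂ) ^ 2 - ξ ^ 2) = w j ξ := by
  have h1 := add_ne_zero' hμ hξ
  have h2 := sub_smul_dslope (w j) (μ j : ℂ) ξ
  rw [hw, sub_zero, smul_eq_mul] at h2
  rw [vv, div_mul_eq_mul_div, div_eq_iff h1, ← h2]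
  ring

lemma norm_dslope_le {f : ℂ → ℂ} {U : Set ℂ} (hU : IsOpen U) {c : ℂ} (hc : c ∈ U) {K : ℝ}
    (hK : 0 ≤ K) (hf : ∀ x ∈ U, ‖f x - f c‖ ≤ K * ‖x - c‖) (x : ℂ) (hx : x ∈ U) :
    ‖dslope f c x‖ ≤ K := by
  by_cases h : x = c
  · subst h
    rw [dslope_same]
    apply norm_deriv_le_of_lip' hK
    filter_upwards [hU.mem_nhds hc] with y hy using hf y hy
  · rw [dslope_of_ne _ h, slope_def_field, norm_div]
    rw [div_le_iff₀ (norm_pos_iff.2 (sub_ne_zero.2 h))]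
    exact hf x hx

lemma vv_bound (j : ℕ) (ha' : 0 < a') (hμa : a' < μ j) (hmm : 0 < mm) (hmμ : mm ≤ μ j)
    (hL : 0 ≤ L * N j)
    (hlip : ∀ ξ ζ : ℂ, a' < ξ.re → a' < ζ.re → ‖w j ξ - w j ζ‖ ≤ L * N j * ‖ξ - ζ‖)
    (ξ : ℂ) (hξ : a' < ξ.re) : ‖vv μ w j ξ‖ ≤ (L / mm) * N j := by
  have hU : IsOpen {z : ℂ | a' < z.re} := isOpen_lt continuous_const continuous_re
  have h1 : ‖dslope (w j) (μ j) ξ‖ ≤ L * N j := by
    apply norm_dslope_le hU (c := (μ j : ℂ)) (by simpa using hμa) hL _ ξ hξ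
    intro x hx
    exact hlip x _ hx (by simpa using hμa)
  have h2 : mm ≤ ‖(μ j : ℂ) + ξ‖ := by
    refine le_trans ?_ (re_le_norm _)
    simp; linarith
  rw [vv, norm_div, norm_neg]
  calc ‖dslope (w j) (μ j) ξ‖ / ‖(μ j : ℂ) + ξ‖ ≤ (L * N j) / mm := by
        apply div_le_div₀ hL h1 hmm h2
    _ = (L / mm) * N j := by ring

lemma vv_differentiableOn (j : ℕ) (ha' : 0 < a') (hμa : a' < μ j)
    (hd : DifferentiableOn ℂ (w j) {z | a' < z.re}) :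
    DifferentiableOn ℂ (vv μ w j) {z | a' < z.re} := by
  have hU : IsOpen {z : ℂ | a' < z.re} := isOpen_lt continuous_const continuous_re
  have h1 : DifferentiableOn ℂ (dslope (w j) (μ j)) {z | a' < z.re} :=
    (Complex.differentiableOn_dslope (hU.mem_nhds (by simpa using hμa))).2 hd
  apply h1.neg.div
  · exact (differentiable_id.const_add _).differentiableOn
  · intro z hz
    exact add_ne_zero' (ha'.trans hμa) (lt_trans ha' hz)

/-- The key uniqueness statement. -/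
theorem series_zero (ha' : 0 < a') (a : ℝ) (haa : a' < a) (hmm : 0 < mm)
    (hμ : ∀ j, mm ≤ μ j) (hμa : ∀ j, a' < μ j) (hL : 0 ≤ L) (hN : ∀ j, 0 ≤ N j)
    (hw : ∀ j, w j (μ j) = 0)
    (hd : ∀ j, DifferentiableOn ℂ (w j) {z | a' < z.re})
    (hlip : ∀ j, ∀ ξ ζ : ℂ, a' < ξ.re → a' < ζ.re → ‖w j ξ - w j ζ‖ ≤ L * N j * ‖ξ - ζ‖)
    (g : ℕ → ℝ) (hNg : Summable (fun j => N j * |g j|))
    (C c : ℝ) (hc : 0 < c)
    (hdec : ∀ b : ℝ, ‖∑' j, vv μ w j (a + b * I) * (g j : ℂ)‖ ≤ C * Real.exp (-c * |b|)) :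
    ∀ ξ : ℂ, a ≤ ξ.re → ∑' j, vv μ w j ξ * (g j : ℂ) = 0 := by
  set F : ℂ → ℂ := fun ξ => ∑' j, vv μ w j ξ * (g j : ℂ) with hF
  have hU : IsOpen {z : ℂ | a' < z.re} := isOpen_lt continuous_const continuous_re
  have hs : Summable (fun j => (L / mm) * (N j * |g j|)) := hNg.mul_left _
  have hb : ∀ j (ξ : ℂ), a' < ξ.re → ‖vv μ w j ξ * (g j : ℂ)‖ ≤ (L / mm) * (N j * |g j|) := by
    intro j ξ hξ
    rw [norm_mul, norm_real, Real.norm_eq_abs, ← mul_assoc]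
    apply mul_le_mul_of_nonneg_right _ (abs_nonneg _)
    exact vv_bound j ha' (hμa j) hmm (hμ j) (mul_nonneg hL (hN j)) (hlip j) ξ hξ
  have hFd : DifferentiableOn ℂ F {z | a' < z.re} := by
    apply differentiableOn_tsum_of_summable_norm hs _ hU (fun j z hz => hb j z hz)
    intro j
    exact (vv_differentiableOn j ha' (hμa j) (hd j)).mul_const _
  apply eq_zero_of_exp_decay F a' a c C (∑' j, (L / mm) * (N j * |g j|)) haa hc hFd
  · intro z hz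
    exact tsum_of_norm_bounded hs.hasSum (fun j => hb j z (lt_of_lt_of_le haa hz))
  · exact hdec

end Pool.Agent.Helper6_AvgControl
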